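import Pool.Agent.Lib_helper8.QP.PsiFlow

/-! # The moving front: potentials and their flow under random restrictions -/

set_option autoImplicit false
set_option linter.unusedSectionVars false

open Finset Polynomial

namespace Pool.Agent.Lib_helper30.MF

open Pool.Agent.Lib_helper30.AA Pool.Agent.Lib_helper40.QP Pool.Agent.Lib_helper8.QP

variable {I : Type} [Fintype I] [DecidableEq I]

/-! ### Scalar inequalities -/

/-- The potential with front `L`. -/
noncomputable def phi (L m : ℝ) : ℝ := min (m ^ 2 / L) m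

lemma phi_le_sq (L m : ℝ) : phi L m ≤ m ^ 2 / L := min_le_left _ _

lemma phi_le_self (L m : ℝ) : phi L m ≤ m := min_le_right _ _

lemma phi_nonneg {L m : ℝ} (hL : 0 < L) (hm : 0 ≤ m) : 0 ≤ phi L m :=
  le_min (by positivity) hm

lemma phi_zero (L : ℝ) : phi L 0 = 0 := by simp [phi]

lemma phi_of_le {L m : ℝ} (hL : 0 < L) (hm : 0 ≤ m) (h : m ≤ L) : phi L m = m ^ 2 / L := by
  unfold phi
  rw [min_eq_left]
  rw [div_le_iff₀ hL, sq]
  exact mul_le_mul_of_nonneg_left h hm

lemma phi_of_ge {L m : ℝ} (hL : 0 < L) (hm : 0 ≤ m) (h : L ≤ m) : phi L m = m := by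
  unfold phi
  rw [min_eq_right]
  rw [le_div_iff₀ hL, sq]
  exact mul_le_mul_of_nonneg_left h hm

lemma phi_mono {L m m' : ℝ} (hL : 0 < L) (hm : 0 ≤ m) (h : m ≤ m') : phi L m ≤ phi L m' := by
  unfold phi
  apply min_le_min _ h
  gcongr

/-- two-point inequality for the potential -/
lemma phi_step {L m v : ℝ} (hL : 0 < L) (hm : 0 ≤ m) :
    (phi L (m + v) + phi L (m - v)) / 2 ≤ phi L m + (if m < L then 1 / L else 0) * v ^ 2 := by
  split_ifs with h
  · have h1 := phi_le_sq L (m + v)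
    have h2 := phi_le_sq L (m - v)
    rw [phi_of_le hL hm h.le]
    have h3 : ((m + v) ^ 2 / L + (m - v) ^ 2 / L) / 2 = m ^ 2 / L + 1 / L * v ^ 2 := by
      field_simp; ring
    linarith
  · push Not at h
    have h1 := phi_le_self L (m + v)
    have h2 := phi_le_self L (m - v)
    rw [phi_of_ge hL hm h]
    linarith

/-! ### The general step -/

/-- One more coordinate is revealed: general potential. -/
theorem step_gen (φ ψ : ℝ → ℝ) (h0 : ∀ m, 0 ≤ m → φ 0 ≤ φ m) (hψ : ∀ m, 0 ≤ m → 0 ≤ ψ m)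
    (h2 : ∀ m v, 0 ≤ m → |v| ≤ m → (φ (m + v) + φ (m - v)) / 2 ≤ φ m + ψ m * v ^ 2)
    (f : (I → Bool) → ℝ) {R : Finset I} {i : I} (hi : i ∉ R) :
    av (fun z => ∑ j, φ (inf (res (insert i R) z f) j)) ≤
      av (fun z => ∑ j, φ (inf (res R z f) j) +
        ∑ j, ψ (inf (res R z f) j) * vv (res R z f) i j ^ 2) := by
  rw [Lib_helper83.QP.av_eq_half i (fun z => ∑ j, φ (inf (res (insert i R) z f) j))]
  refine av_mono fun z => ?_
  rw [← Finset.sum_add_distrib, ← Finset.sum_add_distrib, Finset.sum_div]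
  refine Finset.sum_le_sum fun j _ => ?_
  have hm := inf_nonneg (res R z f) j
  by_cases hij : j = i
  · subst hij
    rw [Lib_helper83.QP.inf_insert_self hi, Lib_helper83.QP.inf_insert_self hi]
    have h1 := h0 _ hm
    have h3 : 0 ≤ ψ (inf (res R z f) j) * vv (res R z f) j j ^ 2 :=
      mul_nonneg (hψ _ hm) (sq_nonneg _)
    linarith
  · rw [Lib_helper83.QP.inf_insert hi hij, Lib_helper83.QP.inf_insert hi hij,
      Lib_helper83.QP.res_flip hi, Lib_helper83.QP.flip_self_apply, Lib_helper83.QP.sg_not]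
    have h := h2 _ _ hm (Lib_helper9.QP.abs_vv_le (res R z f) i j)
    rcases Lib_helper83.QP.sg_cases (z i) with hs | hs
    · rw [hs]
      have e1 : inf (res R z f) j + 1 * vv (res R z f) i j =
        inf (res R z f) j + vv (res R z f) i j := by ring
      have e2 : inf (res R z f) j + -1 * vv (res R z f) i j =
        inf (res R z f) j - vv (res R z f) i j := by ring
      rw [e1, e2]; exact h
    · rw [hs]
      have e1 : inf (res R z f) j + - -1 * vv (res R z f) i j =
        inf (res R z f) j + vv (res R z f) i j := by ring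
      have e2 : inf (res R z f) j + -1 * vv (res R z f) i j =
        inf (res R z f) j - vv (res R z f) i j := by ring
      rw [e1, e2, add_comm (φ (inf (res R z f) j - vv (res R z f) i j))]; exact h

/-- Differential inequality on `[0, ρ]`. -/
theorem gronwall_Icc {F : ℝ → ℝ} {A B : ℝ} (hA : 0 < A) {ρ : ℝ} (hρ0 : 0 ≤ ρ) (hρ1 : ρ < 1)
    (hF : ∀ x ∈ Set.Icc (0 : ℝ) ρ,
      ∃ F', HasDerivAt F F' x ∧ (1 - x) * F' ≤ A * F x + B) :
    F ρ + B / A ≤ (F 0 + B / A) * (1 - ρ) ^ (-A) := by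
  have hder : ∀ x ∈ Set.Icc (0 : ℝ) ρ, ∃ G' ≤ 0,
      HasDerivAt (fun x => (F x + B / A) * (1 - x) ^ A) G' x := by
    intro x hx
    obtain ⟨F', h1, h2⟩ := hF x hx
    have hx1 : 0 < 1 - x := by linarith [hx.2]
    refine ⟨F' * (1 - x) ^ A + (F x + B / A) * ((-1) * A * (1 - x) ^ (A - 1)), ?_, ?_⟩
    · have e1 : (1 - x) ^ A = (1 - x) * (1 - x) ^ (A - 1) := by
        rw [Real.rpow_sub_one hx1.ne']
        field_simp
      have e2 : F' * (1 - x) ^ A + (F x + B / A) * ((-1) * A * (1 - x) ^ (A - 1)) =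
          (1 - x) ^ (A - 1) * ((1 - x) * F' - (A * F x + B)) := by
        rw [e1]
        field_simp
        ring
      rw [e2]
      exact mul_nonpos_of_nonneg_of_nonpos (Real.rpow_nonneg hx1.le _) (by linarith)
    · refine HasDerivAt.mul (h1.add_const _) ?_
      exact ((hasDerivAt_id' x).const_sub 1).rpow_const (Or.inl hx1.ne')
  have hanti : AntitoneOn (fun x => (F x + B / A) * (1 - x) ^ A) (Set.Icc 0 ρ) := by
    refine antitoneOn_of_deriv_nonpos (convex_Icc _ _) ?_ ?_ ?_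
    · intro x hx
      obtain ⟨G', _, h⟩ := hder x hx
      exact h.continuousAt.continuousWithinAt
    · intro x hx
      obtain ⟨G', _, h⟩ := hder x (interior_subset hx)
      exact h.differentiableAt.differentiableWithinAt
    · intro x hx
      obtain ⟨G', h0, h⟩ := hder x (interior_subset hx)
      rw [h.deriv]
      exact h0
  have h := hanti (Set.left_mem_Icc.2 hρ0) (Set.right_mem_Icc.2 hρ0) hρ0
  simp only [sub_zero, Real.one_rpow, mul_one] at h
  have hρ1' : 0 < 1 - ρ := by linarith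
  have hpos : 0 < (1 - ρ) ^ (-A) := Real.rpow_pos_of_pos hρ1' _
  calc F ρ + B / A = (F ρ + B / A) * (1 - ρ) ^ A * (1 - ρ) ^ (-A) := by
        rw [mul_assoc, ← Real.rpow_add hρ1']
        simp
    _ ≤ (F 0 + B / A) * (1 - ρ) ^ (-A) := mul_le_mul_of_nonneg_right h hpos.le

lemma rs_zero (Q : Finset I → ℝ) : rs 0 Q = Q ∅ := by
  unfold rs
  rw [Finset.sum_eq_single (∅ : Finset I)]
  · simp
  · intro S _ hS
    rw [zero_pow (by rwa [ne_eq, Finset.card_eq_zero])]
    ring
  · intro h; exact absurd (Finset.mem_univ _) h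

lemma res_empty (z : I → Bool) (f : (I → Bool) → ℝ) : res ∅ z f = f := by
  ext x; simp [res]

lemma rs_pot_zero (φ : ℝ → ℝ) (f : (I → Bool) → ℝ) :
    rs 0 (fun S => av (fun z => ∑ j, φ (inf (res S z f) j))) = ∑ j, φ (inf f j) := by
  rw [rs_zero]
  simp_rw [res_empty]
  rw [av_const]

/-- The derivative of the flow of a potential. -/
theorem flow_deriv (φ ψ : ℝ → ℝ) (h0 : ∀ m, 0 ≤ m → φ 0 ≤ φ m) (hψ : ∀ m, 0 ≤ m → 0 ≤ ψ m)
    (h2 : ∀ m v, 0 ≤ m → |v| ≤ m → (φ (m + v) + φ (m - v)) / 2 ≤ φ m + ψ m * v ^ 2)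
    (f : (I → Bool) → ℝ) {x : ℝ} (hx0 : 0 ≤ x) (hx1 : x < 1) :
    ∃ F', HasDerivAt (fun ρ => rs ρ (fun S => av (fun z => ∑ j, φ (inf (res S z f) j)))) F' x ∧
      (1 - x) * F' ≤ rs x (fun S => av (fun z =>
        ∑ j, ∑ i, ψ (inf (res S z f) j) * vv (res S z f) i j ^ 2)) := by
  set Q : Finset I → ℝ := fun S => av (fun z => ∑ j, φ (inf (res S z f) j)) with hQ
  obtain ⟨F', h1, h3⟩ := russo Q hx1
  refine ⟨F', h1, ?_⟩
  rw [h3]
  refine rs_mono hx0 hx1.le fun S => ?_
  calc ∑ i ∈ Sᶜ, (Q (insert i S) - Q S)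
      ≤ ∑ i ∈ Sᶜ, av (fun z => ∑ j, ψ (inf (res S z f) j) * vv (res S z f) i j ^ 2) := by
        refine Finset.sum_le_sum fun i hi => ?_
        have h4 := step_gen φ ψ h0 hψ h2 f (Finset.mem_compl.1 hi)
        rw [av_add] at h4
        have h5 : Q (insert i S) ≤ Q S +
          av (fun z => ∑ j, ψ (inf (res S z f) j) * vv (res S z f) i j ^ 2) := h4
        linarith
    _ ≤ ∑ i, av (fun z => ∑ j, ψ (inf (res S z f) j) * vv (res S z f) i j ^ 2) := by
        refine Finset.sum_le_sum_of_subset_of_nonneg (Finset.subset_univ _)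
          fun i _ _ => av_nonneg fun z => Finset.sum_nonneg fun j _ =>
            mul_nonneg (hψ _ (inf_nonneg _ _)) (sq_nonneg _)
    _ = av (fun z => ∑ i, ∑ j, ψ (inf (res S z f) j) * vv (res S z f) i j ^ 2) := by
        rw [← av_sum]
    _ = _ := by
        congr 1
        ext z
        rw [Finset.sum_comm]

/-- The third moments. -/
theorem cube_flow {d : ℕ} (hd1 : 1 ≤ d) {f : (I → Bool) → ℝ} (hd : LowDeg d f) {ρ : ℝ}
    (hρ0 : 0 ≤ ρ) (hρ1 : ρ < 1) :
    rs ρ (fun S => av (fun z => ∑ j, inf (res S z f) j ^ 3)) ≤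
      (∑ j, inf f j ^ 3) * (1 - ρ) ^ (-(12 * (d : ℝ))) := by
  have hd0 : (1 : ℝ) ≤ d := by exact_mod_cast hd1
  have h := gronwall_Icc (F := fun ρ => rs ρ (fun S => av (fun z => ∑ j, inf (res S z f) j ^ 3)))
    (A := 12 * (d : ℝ)) (B := 0) (by positivity) hρ0 hρ1 (fun x hx => ?_)
  · simp only [zero_div, add_zero] at h
    rw [rs_pot_zero (fun m => m ^ 3) f] at h
    exact h
  · obtain ⟨F', h1, h2⟩ := flow_deriv (fun m => m ^ 3) (fun m => 3 * m)
      (fun m hm => by rw [zero_pow (by norm_num)]; positivity)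
      (fun m hm => by positivity)
      (fun m v hm hv => le_of_eq (by ring)) f hx.1 (lt_of_le_of_lt hx.2 hρ1)
    refine ⟨F', h1, h2.trans ?_⟩
    rw [add_zero, ← rs_mul_left]
    refine rs_mono hx.1 (hx.2.trans hρ1.le) fun S => ?_
    rw [← av_mul_left]
    refine av_mono fun z => ?_
    rw [Finset.mul_sum]
    refine Finset.sum_le_sum fun j _ => ?_
    rw [← Finset.mul_sum]
    have h3 := Lib_helper9.QP.sum_vv_sq_le (lowDeg_res hd S z) j
    have h4 := inf_nonneg (res S z f) j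
    calc 3 * inf (res S z f) j * ∑ i, vv (res S z f) i j ^ 2
        ≤ 3 * inf (res S z f) j * (4 * d * inf (res S z f) j ^ 2) :=
          mul_le_mul_of_nonneg_left h3 (by positivity)
      _ = 12 * d * inf (res S z f) j ^ 3 := by ring

end Pool.Agent.Lib_helper30.MF
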