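import Pool.Agent.Lib_helper30.MF.Final

/-! # The unified Aaronson-Ambainis bound: consequences -/

set_option autoImplicit false
set_option linter.unusedSectionVars false

open Finset Polynomial

namespace Pool.Agent.Lib_helper30.MF

open Pool.Agent.Lib_helper30.AA Pool.Agent.Lib_helper40.QP Pool.Agent.Lib_helper8.QP

variable {I : Type} [Fintype I] [DecidableEq I]

/-- exponent bookkeeping -/
lemma expo {D s s' T C : ℝ} (hD : 1 ≤ D) (hs : 0 < s) (hs1 : s ≤ 1) (hs' : s / 2 ≤ s')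
    (hT : 0 ≤ T) (hC : 400 ≤ C) {T' : ℝ} (hT' : 0 ≤ T') (hTT' : T' ≤ T) :
    (s / (4 * D)) ^ (C * (1 + T)) ≤
      (s' / (4 * D)) ^ 12 * Real.exp (-((200 * Real.log (4 * D / s') + 2) * T')) := by
  have hD0 : 0 < D := by linarith
  have hs'0 : 0 < s' := by linarith
  obtain ⟨lam, hlam⟩ : ∃ lam, lam = Real.log (4 * D / s) := ⟨_, rfl⟩
  obtain ⟨lam', hlam'⟩ : ∃ lam', lam' = Real.log (4 * D / s') := ⟨_, rfl⟩
  have hlog2 : Real.log 2 < 0.6931471808 := Real.log_two_lt_d9
  have hlog2' : 0.6931471803 < Real.log 2 := Real.log_two_gt_d9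
  have hl2 : 2 * Real.log 2 ≤ lam := by
    have h1 : 2 * Real.log 2 = Real.log 4 := by
      rw [show (4 : ℝ) = 2 ^ 2 by norm_num, Real.log_pow]; norm_num
    rw [h1, hlam]
    apply Real.log_le_log (by norm_num)
    rw [le_div_iff₀ hs]
    nlinarith
  have hll : lam' ≤ lam + Real.log 2 := by
    rw [hlam, hlam', ← Real.log_mul (by positivity) (by norm_num)]
    apply Real.log_le_log (by positivity)
    rw [div_le_iff₀ hs'0]
    have : 4 * D / s * 2 * s' = (4 * D) * (2 * s' / s) := by ring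
    rw [this]
    have h2 : 1 ≤ 2 * s' / s := by rw [le_div_iff₀ hs]; linarith
    nlinarith
  have e1 : s / (4 * D) = Real.exp (-lam) := by
    rw [hlam, Real.exp_neg, Real.exp_log (by positivity), inv_div]
  have e2 : s' / (4 * D) = Real.exp (-lam') := by
    rw [hlam', Real.exp_neg, Real.exp_log (by positivity), inv_div]
  rw [← hlam', e1, e2, ← Real.exp_mul, ← Real.exp_nat_mul, ← Real.exp_add]
  apply Real.exp_le_exp.2
  have hlam0 : 0 ≤ lam := by linarith
  have h15 : lam' ≤ 1.5 * lam := by linarith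
  have h2l : 2 ≤ 1.5 * lam := by linarith
  have a1 : lam' * T' ≤ 1.5 * lam * T := by
    calc lam' * T' ≤ 1.5 * lam * T' := mul_le_mul_of_nonneg_right h15 hT'
      _ ≤ 1.5 * lam * T := mul_le_mul_of_nonneg_left hTT' (by positivity)
  have a2 : 2 * T' ≤ 1.5 * lam * T := by
    calc 2 * T' ≤ 1.5 * lam * T' := mul_le_mul_of_nonneg_right h2l hT'
      _ ≤ 1.5 * lam * T := mul_le_mul_of_nonneg_left hTT' (by positivity)
  have a3 : 0 ≤ lam * T := by positivity
  have a4 : 0 ≤ (C - 400) * (lam * (1 + T)) :=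
    mul_nonneg (by linarith) (mul_nonneg hlam0 (by linarith))
  push_cast
  nlinarith

/-- **(a)** every noise rate -/
theorem all_rho {d : ℕ} (hd1 : 1 ≤ d) {f : (I → Bool) → ℝ} (hf : ∀ x, |f x| ≤ 1)
    (hd : LowDeg d f) {ρ : ℝ} (hρ0 : 0 ≤ ρ) (hρ1 : ρ < 1) {s : ℝ} (hs : 0 < s)
    (hsf : s ≤ st ρ f) :
    ∃ j, (s / (4 * d)) ^ (400 * (1 + Real.log (1 / (1 - ρ)))) ≤ inf f j := by
  have hd0 : (1 : ℝ) ≤ d := by exact_mod_cast hd1
  have hdp : (0 : ℝ) < d := by linarith
  have hs1 : s ≤ 1 := hsf.trans (st_le_one hf hρ0 hρ1.le)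
  have h1ρ : 0 < 1 - ρ := by linarith
  have hT0 : 0 ≤ Real.log (1 / (1 - ρ)) := by
    apply Real.log_nonneg
    rw [le_div_iff₀ h1ρ]; linarith
  have hTexp : Real.exp (-Real.log (1 / (1 - ρ))) = 1 - ρ := by
    rw [Real.exp_neg, Real.exp_log (by positivity), one_div, inv_inv]
  rcases le_total ρ (1 - 1 / (2 * d)) with h | h
  · obtain ⟨j, hj⟩ := main_time hd1 hf hd hT0 (by
      apply Real.log_le_log (by positivity)
      rw [div_le_iff₀ h1ρ]
      have h2 : 1 / (2 * (d : ℝ)) ≤ 1 - ρ := by linarith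
      calc (1 : ℝ) = 2 * d * (1 / (2 * d)) := by field_simp
        _ ≤ 2 * d * (1 - ρ) := mul_le_mul_of_nonneg_left h2 (by positivity)) hs
      (by rw [hTexp]; convert hsf using 2; ring)
    exact ⟨j, (expo hd0 hs hs1 (by linarith) hT0 le_rfl hT0 le_rfl).trans hj⟩
  · have hT'0 : 0 ≤ Real.log (2 * d) := Real.log_nonneg (by linarith)
    have hexp' : Real.exp (-Real.log (2 * (d : ℝ))) = 1 / (2 * d) := by
      rw [Real.exp_neg, Real.exp_log (by positivity), one_div]
    have hinv : 1 / (2 * (d : ℝ)) ≤ 1 / 2 := by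
      apply one_div_le_one_div_of_le (by norm_num); linarith
    have hhalf : s / 2 ≤ st (1 - Real.exp (-Real.log (2 * (d : ℝ)))) f := by
      rw [hexp']
      have h1 : st ρ f / 2 ≤ st (1 - 1 / (2 * (d : ℝ))) f := by
        unfold st
        rw [Finset.sum_div]
        refine Finset.sum_le_sum fun S _ => ?_
        rcases le_or_gt S.card d with hc | hc
        · have h2 : (1 : ℝ) / 2 ≤ (1 - 1 / (2 * (d : ℝ))) ^ S.card := by
            have h3 := one_add_mul_le_pow (a := -(1 / (2 * (d : ℝ)))) (by linarith) d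
            have h4 : 1 + (d : ℝ) * -(1 / (2 * (d : ℝ))) = 1 / 2 := by field_simp; ring
            rw [h4] at h3
            calc (1 : ℝ) / 2 ≤ (1 + -(1 / (2 * (d : ℝ)))) ^ d := h3
              _ ≤ (1 + -(1 / (2 * (d : ℝ)))) ^ S.card := by
                  apply pow_le_pow_of_le_one _ _ hc
                  · linarith
                  · have : 0 < 1 / (2 * (d : ℝ)) := by positivity
                    linarith
              _ = _ := by ring
          have h5 : ρ ^ S.card ≤ 1 := pow_le_one₀ hρ0 hρ1.le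
          have h6 := sq_nonneg (coef f S)
          calc ρ ^ S.card * coef f S ^ 2 / 2 ≤ 1 * coef f S ^ 2 / 2 := by gcongr
            _ = 1 / 2 * coef f S ^ 2 := by ring
            _ ≤ _ := mul_le_mul_of_nonneg_right h2 h6
        · rw [hd S hc]; simp
      linarith
    have hs20 : 0 < s / 2 := by linarith
    obtain ⟨j, hj⟩ := main_time hd1 hf hd hT'0 le_rfl hs20 hhalf
    refine ⟨j, (expo hd0 hs hs1 le_rfl hT0 le_rfl hT'0 ?_).trans hj⟩
    apply Real.log_le_log (by positivity)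
    rw [le_div_iff₀ h1ρ]
    have h2 : 1 - ρ ≤ 1 / (2 * (d : ℝ)) := by linarith
    calc 2 * d * (1 - ρ) ≤ 2 * d * (1 / (2 * d)) := mul_le_mul_of_nonneg_left h2 (by positivity)
      _ = 1 := by field_simp

/-- **(d)** the first `k` levels -/
theorem levels {d : ℕ} (hd1 : 1 ≤ d) {f : (I → Bool) → ℝ} (hf : ∀ x, |f x| ≤ 1)
    (hd : LowDeg d f) (k : ℕ) {W : ℝ} (hW : 0 < W)
    (hWk : W = ∑ S ∈ univ.filter (fun S : Finset I => S.card ≠ 0 ∧ S.card ≤ k), coef f S ^ 2) :
    ∃ j, (W / (4 * d)) ^ (800 * (1 + Real.log (k + 1))) ≤ inf f j := by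
  have hd0 : (1 : ℝ) ≤ d := by exact_mod_cast hd1
  have hk0 : (0 : ℝ) ≤ k := Nat.cast_nonneg k
  have hk1 : (0 : ℝ) < k + 1 := by linarith
  set ρ : ℝ := 1 - 1 / (k + 1) with hρ
  have hinv : 1 / ((k : ℝ) + 1) ≤ 1 := by rw [div_le_one hk1]; linarith
  have hinv0 : 0 < 1 / ((k : ℝ) + 1) := by positivity
  have hρ0 : 0 ≤ ρ := by rw [hρ]; linarith
  have hρ1 : ρ < 1 := by rw [hρ]; linarith
  have hW1 : W ≤ 1 := by
    rw [hWk]
    refine le_trans ?_ (fs_one_le hf)
    exact Finset.sum_le_sum_of_subset_of_nonneg (Finset.filter_subset _ _)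
      fun _ _ _ => sq_nonneg _
  -- `ρ^k ≥ 1/4`
  have hpow : (1 : ℝ) / 4 ≤ ρ ^ k := by
    rcases Nat.eq_zero_or_pos k with h | h
    · rw [h, pow_zero]; norm_num
    · have hkp : (0 : ℝ) < k := by exact_mod_cast h
      have h1 : ρ = (1 + 1 / (k : ℝ))⁻¹ := by
        rw [hρ]; field_simp; ring
      have h2 : (1 + 1 / (k : ℝ)) ^ k ≤ Real.exp 1 := by
        have h3 : 1 + 1 / (k : ℝ) ≤ Real.exp (1 / k) := by
          have := Real.add_one_le_exp (1 / (k : ℝ)); linarith
        calc (1 + 1 / (k : ℝ)) ^ k ≤ (Real.exp (1 / k)) ^ k :=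
              pow_le_pow_left₀ (by positivity) h3 k
          _ = Real.exp 1 := by
              rw [← Real.exp_nat_mul]; congr 1; field_simp
      rw [h1, inv_pow, one_div]
      apply inv_anti₀ (by positivity)
      have := Real.exp_one_lt_d9
      linarith
  have hst : W / 4 ≤ st ρ f := by
    unfold st
    rw [hWk, Finset.sum_div]
    refine le_trans (Finset.sum_le_sum (fun S hS => ?_))
      (Finset.sum_le_sum_of_subset_of_nonneg (f := fun S : Finset I =>
        ρ ^ S.card * coef f S ^ 2) ?_ fun S _ _ => by positivity)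
    · rw [Finset.mem_filter] at hS
      have h1 : (1 : ℝ) / 4 ≤ ρ ^ S.card :=
        hpow.trans (pow_le_pow_of_le_one hρ0 hρ1.le hS.2.2)
      have := mul_le_mul_of_nonneg_right h1 (sq_nonneg (coef f S))
      linarith
    · intro S hS
      rw [Finset.mem_filter] at hS
      rw [Finset.mem_erase]
      exact ⟨fun h => hS.2.1 (by rw [h, Finset.card_empty]), Finset.mem_univ _⟩
  obtain ⟨j, hj⟩ := all_rho hd1 hf hd hρ0 hρ1 (s := W / 4) (by linarith) hst
  refine ⟨j, le_trans ?_ hj⟩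
  have hT : 1 / (1 - ρ) = k + 1 := by rw [hρ]; field_simp; ring
  rw [hT]
  have hlog : 0 ≤ Real.log ((k : ℝ) + 1) := Real.log_nonneg (by linarith)
  have h1 : (W / (4 * (d : ℝ))) ^ (800 * (1 + Real.log (k + 1))) =
      ((W / (4 * (d : ℝ))) ^ (2 : ℝ)) ^ (400 * (1 + Real.log (k + 1))) := by
    rw [← Real.rpow_mul (by positivity)]; congr 1; ring
  rw [h1]
  apply Real.rpow_le_rpow (by positivity) _ (by positivity)
  rw [Real.rpow_two, sq]
  have h2 : W / (4 * (d : ℝ)) ≤ 1 / 4 := by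
    rw [div_le_div_iff₀ (by positivity) (by norm_num)]
    nlinarith
  calc W / (4 * (d : ℝ)) * (W / (4 * d)) ≤ 1 / 4 * (W / (4 * d)) :=
        mul_le_mul_of_nonneg_right h2 (by positivity)
    _ = W / 4 / (4 * d) := by ring

/-- **(b)** the variance -/
theorem general {d : ℕ} (hd1 : 1 ≤ d) {f : (I → Bool) → ℝ} (hf : ∀ x, |f x| ≤ 1)
    (hd : LowDeg d f) {V : ℝ} (hV : 0 < V) (hVar : V = av (fun x => f x ^ 2) - av f ^ 2) :
    ∃ j, Real.exp (-(1000 * Real.log (4 * d) * Real.log (4 * d / V))) ≤ inf f j := by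
  have hd0 : (1 : ℝ) ≤ d := by exact_mod_cast hd1
  have hpar : av (fun x => f x ^ 2) = ∑ S : Finset I, coef f S ^ 2 := (parseval_sq f).symm
  have hemp : av f = coef f ∅ := (coef_empty f).symm
  have h0 : ∀ g : Finset I → ℝ, ∑ S, g S = g ∅ + ∑ S ∈ univ.erase ∅, g S := fun g =>
    (Finset.add_sum_erase _ _ (Finset.mem_univ _)).symm
  have hVs : ∑ S ∈ univ.erase (∅ : Finset I), coef f S ^ 2 = V := by
    rw [hVar, hpar, hemp, h0 (fun S => coef f S ^ 2)]; ring
  have hVk : V = ∑ S ∈ univ.filter (fun S : Finset I => S.card ≠ 0 ∧ S.card ≤ d),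
      coef f S ^ 2 := by
    rw [← hVs]
    symm
    apply Finset.sum_subset
    · intro S hS
      rw [Finset.mem_filter] at hS
      rw [Finset.mem_erase]
      exact ⟨fun h => hS.2.1 (by rw [h, Finset.card_empty]), Finset.mem_univ _⟩
    · intro S hS hS2
      rw [Finset.mem_erase] at hS
      have h1 : S.card ≠ 0 := fun h => hS.1 (Finset.card_eq_zero.1 h)
      rw [Finset.mem_filter, not_and] at hS2
      have h2 := hS2 (Finset.mem_univ _)
      have h3 : d < S.card := by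
        by_contra hc
        exact h2 ⟨h1, by omega⟩
      rw [hd S h3]; ring
  obtain ⟨j, hj⟩ := levels hd1 hf hd d hV hVk
  refine ⟨j, le_trans ?_ hj⟩
  have hV1 : V ≤ 1 := by
    rw [hVk]
    refine le_trans ?_ (fs_one_le hf)
    exact Finset.sum_le_sum_of_subset_of_nonneg (Finset.filter_subset _ _)
      fun _ _ _ => sq_nonneg _
  have e1 : V / (4 * (d : ℝ)) = Real.exp (-Real.log (4 * d / V)) := by
    rw [Real.exp_neg, Real.exp_log (by positivity), inv_div]
  rw [e1, ← Real.exp_mul]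
  apply Real.exp_le_exp.2
  have hl0 : 0 ≤ Real.log (4 * d / V) := by
    apply Real.log_nonneg
    rw [le_div_iff₀ hV]; nlinarith
  have h4 : 1 + Real.log ((d : ℝ) + 1) ≤ 1.25 * Real.log (4 * d) := by
    have h5 : Real.log ((d : ℝ) + 1) ≤ Real.log (2 * d) :=
      Real.log_le_log (by positivity) (by linarith)
    have h6 : Real.log (4 * (d : ℝ)) = Real.log 2 + Real.log (2 * d) := by
      rw [← Real.log_mul (by norm_num) (by positivity)]; congr 1; ring
    have h7 : 0.6931471803 < Real.log 2 := Real.log_two_gt_d9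
    have h8 : Real.log 2 ≤ Real.log (2 * (d : ℝ)) :=
      Real.log_le_log (by norm_num) (by linarith)
    rw [h6]
    linarith
  have h9 : Real.log (4 * d / V) * (1 + Real.log ((d : ℝ) + 1)) ≤
      Real.log (4 * d / V) * (1.25 * Real.log (4 * d)) := mul_le_mul_of_nonneg_left h4 hl0
  nlinarith

/-- Jensen: the stability is at least `V ρ^(I/V)`. -/
lemma jensen_rho {ι : Type*} (s : Finset ι) (c w : ι → ℝ) (hc : ∀ i ∈ s, 0 ≤ c i) {V A ρ : ℝ}
    (hρ : 0 < ρ) (hV : 0 < V) (hVs : ∑ i ∈ s, c i = V) (hA : ∑ i ∈ s, w i * c i = A) :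
    V * ρ ^ (A / V) ≤ ∑ i ∈ s, ρ ^ (w i) * c i := by
  have key : ∀ i ∈ s, ρ ^ (A / V) * (1 + (w i - A / V) * Real.log ρ) * c i ≤
      ρ ^ (w i) * c i := by
    intro i hi
    apply mul_le_mul_of_nonneg_right _ (hc i hi)
    have h1 : ρ ^ (w i) = ρ ^ (A / V) * Real.exp ((w i - A / V) * Real.log ρ) := by
      rw [Real.rpow_def_of_pos hρ, Real.rpow_def_of_pos hρ, ← Real.exp_add]
      congr 1; ring
    rw [h1]
    apply mul_le_mul_of_nonneg_left _ (by positivity)
    have := Real.add_one_le_exp ((w i - A / V) * Real.log ρ)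
    linarith
  refine le_trans (le_of_eq ?_) (Finset.sum_le_sum key)
  have h2 : ∀ i, ρ ^ (A / V) * (1 + (w i - A / V) * Real.log ρ) * c i =
      ρ ^ (A / V) * ((1 - A / V * Real.log ρ) * c i + Real.log ρ * (w i * c i)) := by
    intro i; ring
  simp_rw [h2]
  rw [← Finset.mul_sum, Finset.sum_add_distrib, ← Finset.mul_sum, ← Finset.mul_sum, hVs, hA]
  field_simp
  ring

/-- **(c)** the total influence -/
theorem total {d : ℕ} (hd1 : 1 ≤ d) {f : (I → Bool) → ℝ} (hf : ∀ x, |f x| ≤ 1)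
    (hd : LowDeg d f) {V : ℝ} (hV : 0 < V) (hVar : V = av (fun x => f x ^ 2) - av f ^ 2) :
    ∃ j, (V / (4 * d)) ^ (2400 * (1 + Real.log (1 + (∑ i, inf f i) /
      (V * Real.log (4 * d / V))))) ≤ inf f j := by
  have hd0 : (1 : ℝ) ≤ d := by exact_mod_cast hd1
  have hpar : av (fun x => f x ^ 2) = ∑ S : Finset I, coef f S ^ 2 := (parseval_sq f).symm
  have hemp : av f = coef f ∅ := (coef_empty f).symm
  have h0 : ∀ g : Finset I → ℝ, ∑ S, g S = g ∅ + ∑ S ∈ univ.erase ∅, g S := fun g =>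
    (Finset.add_sum_erase _ _ (Finset.mem_univ _)).symm
  have hVs : ∑ S ∈ univ.erase (∅ : Finset I), coef f S ^ 2 = V := by
    rw [hVar, hpar, hemp, h0 (fun S => coef f S ^ 2)]; ring
  have hA : ∑ S ∈ univ.erase (∅ : Finset I), (S.card : ℝ) * coef f S ^ 2 = ∑ i, inf f i := by
    have h1 : ∑ j, inf f j = ∑ S : Finset I, (S.card : ℝ) * coef f S ^ 2 := by
      calc ∑ j, inf f j = ∑ j, ∑ S : Finset I, if j ∈ S then coef f S ^ 2 else 0 := by
            refine Finset.sum_congr rfl fun j _ => ?_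
            rw [Lib_helper9.QP.inf_eq, Finset.sum_filter]
        _ = ∑ S : Finset I, ∑ j, if j ∈ S then coef f S ^ 2 else 0 := Finset.sum_comm
        _ = ∑ S : Finset I, (S.card : ℝ) * coef f S ^ 2 := by
            refine Finset.sum_congr rfl fun S _ => ?_
            rw [← Finset.sum_filter, Finset.sum_const, nsmul_eq_mul]
            simp
    rw [h1, h0 (fun S => (S.card : ℝ) * coef f S ^ 2)]
    simp
  have hV1 : V ≤ 1 := by
    rw [← hVs]
    refine le_trans ?_ (fs_one_le hf)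
    exact Finset.sum_le_sum_of_subset_of_nonneg (Finset.subset_univ _) fun _ _ _ => sq_nonneg _
  set A : ℝ := ∑ i, inf f i with hAdef
  have hA0 : 0 ≤ A := Finset.sum_nonneg fun i _ => inf_nonneg f i
  set Λ : ℝ := Real.log (4 * d / V) with hΛ
  have hΛ0 : 0 < Λ := by
    rw [hΛ]
    apply Real.log_pos
    rw [lt_div_iff₀ hV]; nlinarith
  set u : ℝ := 1 + A / (V * Λ) with hu
  have hu1 : 1 ≤ u := by
    rw [hu]
    have : 0 ≤ A / (V * Λ) := by positivity
    linarith
  have hu0 : 0 < u := by linarith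
  set ρ : ℝ := 1 - 1 / (2 * u) with hρ
  have hinv : 1 / (2 * u) ≤ 1 / 2 := by
    apply one_div_le_one_div_of_le (by norm_num); linarith
  have hinv0 : 0 < 1 / (2 * u) := by positivity
  have hρhalf : 1 / 2 ≤ ρ := by rw [hρ]; linarith
  have hρ0 : 0 < ρ := by linarith
  have hρ1 : ρ < 1 := by rw [hρ]; linarith
  have hlogρ : -(1 / u) ≤ Real.log ρ := by
    have h1 := Real.one_sub_inv_le_log_of_pos hρ0
    have h2 : ρ⁻¹ ≤ 1 + 1 / u := by
      rw [inv_le_comm₀ hρ0 (by positivity), hρ]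
      have h3 : (1 + 1 / u)⁻¹ = u / (u + 1) := by field_simp
      rw [h3, div_le_iff₀ (by linarith)]
      have h4 : (1 - 1 / (2 * u)) * (u + 1) = u + 1 / 2 - 1 / (2 * u) := by
        field_simp; ring
      rw [h4]
      linarith
    linarith
  have hj := jensen_rho (univ.erase (∅ : Finset I)) (fun S => coef f S ^ 2)
    (fun S => (S.card : ℝ)) (fun S _ => sq_nonneg _) hρ0 hV hVs hA
  have hst : V * ρ ^ (A / V) ≤ st ρ f := by
    refine hj.trans (le_of_eq ?_)
    unfold st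
    refine Finset.sum_congr rfl fun S _ => ?_
    rw [Real.rpow_natCast]
  have hlow : V / (4 * d) ≤ ρ ^ (A / V) := by
    have e1 : V / (4 * (d : ℝ)) = Real.exp (-Λ) := by
      rw [hΛ, Real.exp_neg, Real.exp_log (by positivity), inv_div]
    rw [e1, Real.rpow_def_of_pos hρ0]
    apply Real.exp_le_exp.2
    have h1 : -(1 / u) * (A / V) ≤ Real.log ρ * (A / V) :=
      mul_le_mul_of_nonneg_right hlogρ (by positivity)
    have h2 : 1 / u * (A / V) ≤ Λ := by
      rw [one_div, inv_mul_le_iff₀ hu0, hu]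
      have h3 : (1 + A / (V * Λ)) * Λ = Λ + A / V := by field_simp
      rw [h3]; linarith
    linarith
  have hs : V * (V / (4 * d)) ≤ st ρ f :=
    (mul_le_mul_of_nonneg_left hlow hV.le).trans hst
  obtain ⟨j, hj⟩ := all_rho hd1 hf hd hρ0.le hρ1 (s := V * (V / (4 * d))) (by positivity) hs
  refine ⟨j, le_trans ?_ hj⟩
  have hT : 1 / (1 - ρ) = 2 * u := by rw [hρ]; field_simp; ring
  rw [hT, Real.log_mul (by norm_num) hu0.ne']
  have hlogu : 0 ≤ Real.log u := Real.log_nonneg hu1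
  have hlog2 : Real.log 2 < 0.6931471808 := Real.log_two_lt_d9
  have hlog20 : 0 ≤ Real.log 2 := Real.log_nonneg (by norm_num)
  have hb0 : 0 < V / (4 * (d : ℝ)) := by positivity
  have hb1 : V / (4 * (d : ℝ)) ≤ 1 := by
    rw [div_le_one (by positivity)]; nlinarith
  have h1 : (V / (4 * (d : ℝ))) ^ (2400 * (1 + Real.log u)) ≤
      (V / (4 * (d : ℝ))) ^ (3 * (400 * (1 + (Real.log 2 + Real.log u)))) := by
    apply Real.rpow_le_rpow_of_exponent_ge hb0 hb1
    nlinarith
  refine h1.trans ?_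
  rw [Real.rpow_mul hb0.le]
  apply Real.rpow_le_rpow (by positivity) _ (by positivity)
  rw [show (3 : ℝ) = ((3 : ℕ) : ℝ) by norm_num, Real.rpow_natCast]
  have h2 : V * (V / (4 * (d : ℝ))) / (4 * d) = (V / (4 * d)) ^ 2 := by ring
  rw [h2]
  exact pow_le_pow_of_le_one hb0.le hb1 (by norm_num)

end Pool.Agent.Lib_helper30.MF
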