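import Pool.Agent.Lib_helper30.MF.Induct

/-! # The unified Aaronson-Ambainis bound -/

set_option autoImplicit false
set_option linter.unusedSectionVars false

open Finset Polynomial

namespace Pool.Agent.Lib_helper30.MF

open Pool.Agent.Lib_helper30.AA Pool.Agent.Lib_helper40.QP Pool.Agent.Lib_helper8.QP

variable {I : Type} [Fintype I] [DecidableEq I]

lemma st_le_one {f : (I → Bool) → ℝ} (hf : ∀ x, |f x| ≤ 1) {q : ℝ} (hq0 : 0 ≤ q) (hq1 : q ≤ 1) :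
    st q f ≤ 1 := by
  refine le_trans ?_ (fs_one_le hf)
  unfold st
  calc _ ≤ ∑ S ∈ univ.erase (∅ : Finset I), coef f S ^ 2 := by
        refine Finset.sum_le_sum fun S _ => ?_
        have h1 : q ^ S.card ≤ 1 := pow_le_one₀ hq0 hq1
        have h2 := mul_le_mul_of_nonneg_right h1 (sq_nonneg (coef f S))
        linarith
    _ ≤ _ := Finset.sum_le_sum_of_subset_of_nonneg (Finset.subset_univ _)
          fun _ _ _ => sq_nonneg _

/-- the condition on `W` -/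
lemma w_cond {D y lam T W m0 L0 : ℝ} (hD : 1 ≤ D) (hy : 0 < y) (hDy : D * y ≤ 1 / 4)
    (hlam : Real.exp lam = y⁻¹) (hL0 : L0 = y ^ 6 * Real.exp (-((200 * lam + 2) * T)))
    (hm0 : m0 = L0 * y ^ 8) (hW : W = 2 + 48 * lam + 3 * ((200 * lam + 2) * T)) :
    2 * Real.exp 1 * (D / m0) * (D / (m0 ^ 2 / (4096 * D ^ 4))) ≤ Real.exp W := by
  have hD0 : 0 < D := by linarith
  set E : ℝ := Real.exp ((200 * lam + 2) * T) with hE
  have hE0 : 0 < E := Real.exp_pos _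
  have hEinv : Real.exp (-((200 * lam + 2) * T)) = E⁻¹ := by rw [hE, Real.exp_neg]
  have hm : m0 = y ^ 14 * E⁻¹ := by rw [hm0, hL0, hEinv]; ring
  have h1 : 2 * Real.exp 1 * (D / m0) * (D / (m0 ^ 2 / (4096 * D ^ 4))) =
      2 * Real.exp 1 * ((4 * D * y) ^ 6 * (y⁻¹ ^ 48 * E ^ 3)) := by
    rw [hm]
    field_simp
    ring
  have h2 : Real.exp W = Real.exp 2 * (y⁻¹ ^ 48 * E ^ 3) := by
    have e1 : W = 2 + ((48 : ℕ) * lam + (3 : ℕ) * ((200 * lam + 2) * T)) := by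
      rw [hW]; push_cast; ring
    rw [e1, Real.exp_add, Real.exp_add, Real.exp_nat_mul, Real.exp_nat_mul, hlam, ← hE]
  rw [h1, h2]
  have h3 : (4 * D * y) ^ 6 ≤ 1 := pow_le_one₀ (by positivity) (by linarith)
  have h4 : 2 * Real.exp 1 ≤ Real.exp 2 := by
    have e2 : Real.exp 2 = Real.exp 1 * Real.exp 1 := by rw [← Real.exp_add]; norm_num
    have e3 : (2 : ℝ) ≤ Real.exp 1 := by
      have := Real.add_one_le_exp (1 : ℝ); linarith
    rw [e2]
    exact mul_le_mul_of_nonneg_right e3 (Real.exp_pos _).le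
  have h5 : 0 ≤ y⁻¹ ^ 48 * E ^ 3 := by positivity
  calc 2 * Real.exp 1 * ((4 * D * y) ^ 6 * (y⁻¹ ^ 48 * E ^ 3))
      ≤ 2 * Real.exp 1 * (1 * (y⁻¹ ^ 48 * E ^ 3)) := by gcongr
    _ = 2 * Real.exp 1 * (y⁻¹ ^ 48 * E ^ 3) := by ring
    _ ≤ _ := mul_le_mul_of_nonneg_right h4 h5

/-- the exceptional mass is small -/
lemma p_cond {D y lam T W s : ℝ} (hD : 1 ≤ D) (hy : 0 < y) (hDy : D * y = s / 4) (hs : 0 < s)
    (hs1 : s ≤ 1) (hlam : Real.exp lam = y⁻¹) (hT0 : 0 ≤ T) (hT : T ≤ lam)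
    (hW : W = 2 + 48 * lam + 3 * ((200 * lam + 2) * T)) :
    2304 * D ^ 4 * (360 * D ^ 7 * (4 * D) ^ 2 * (4 * D + 2 * W) ^ 6 *
      Real.exp (-(200 * lam) / 4)) ≤ s / 8 := by
  have hD0 : 0 < D := by linarith
  have hy4 : y ≤ 1 / 4 := by nlinarith
  set x : ℝ := y⁻¹ with hx
  have hxy : x * y = 1 := inv_mul_cancel₀ hy.ne'
  have hx4 : 4 ≤ x := by
    rw [hx, le_inv_comm₀ (by norm_num) hy]; linarith
  have hlam0 : 0 ≤ lam := hT0.trans hT
  have hlx : lam ≤ 0.368 * x := by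
    have h1 := Real.add_one_le_exp (lam - 1)
    have h2 : Real.exp lam = Real.exp 1 * Real.exp (lam - 1) := by
      rw [← Real.exp_add]; congr 1; ring
    have h3 := Real.exp_one_gt_d9
    rw [hlam] at h2
    have h4 : 0 < Real.exp (lam - 1) := Real.exp_pos _
    nlinarith
  have hl2x : lam ^ 2 ≤ 0.5414 * x := by
    have h1 := Real.add_one_le_exp (lam / 2 - 1)
    have h2 : Real.exp lam = (Real.exp 1 * Real.exp (lam / 2 - 1)) ^ 2 := by
      rw [← Real.exp_add, ← Real.exp_nat_mul]; congr 1; push_cast; ring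
    have h3 := Real.exp_one_gt_d9
    rw [hlam] at h2
    have h4 : lam / 2 ≤ Real.exp (lam / 2 - 1) := by linarith
    have h5 : (2.7182818283 * (lam / 2)) ^ 2 ≤ (Real.exp 1 * Real.exp (lam / 2 - 1)) ^ 2 := by
      apply pow_le_pow_left₀ (by positivity)
      exact mul_le_mul h3.le h4 (by positivity) (Real.exp_pos _).le
    rw [← h2] at h5
    nlinarith
  have hW2 : 4 * D + 2 * W ≤ x ^ 6 := by
    have h1 : W ≤ 2 + 54 * lam + 600 * lam ^ 2 := by
      rw [hW]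
      nlinarith [mul_nonneg hlam0 (sub_nonneg.2 hT)]
    have h2 : 4 * D ≤ x := by
      have : 4 * D * y ≤ 1 := by linarith
      rw [← hxy] at this
      exact le_of_mul_le_mul_right this hy
    have h3 : (1024 : ℝ) ≤ x ^ 5 := by
      calc (1024 : ℝ) = 4 ^ 5 := by norm_num
        _ ≤ x ^ 5 := pow_le_pow_left₀ (by norm_num) hx4 5
    have h4 : x ^ 6 = x ^ 5 * x := by ring
    rw [h4]
    nlinarith
  have hW0 : 0 ≤ W := by rw [hW]; positivity
  have h6 : (4 * D + 2 * W) ^ 6 ≤ (x ^ 6) ^ 6 := pow_le_pow_left₀ (by positivity) hW2 6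
  have hexp : Real.exp (-(200 * lam) / 4) = y ^ 50 := by
    have e1 : -(200 * lam) / 4 = -((50 : ℕ) * lam) := by push_cast; ring
    rw [e1, Real.exp_neg, Real.exp_nat_mul, hlam, hx, inv_pow, inv_inv]
  rw [hexp]
  have hDy' : (D * y) ^ 13 = (s / 4) ^ 13 := by rw [hDy]
  calc 2304 * D ^ 4 * (360 * D ^ 7 * (4 * D) ^ 2 * (4 * D + 2 * W) ^ 6 * y ^ 50)
      ≤ 2304 * D ^ 4 * (360 * D ^ 7 * (4 * D) ^ 2 * (x ^ 6) ^ 6 * y ^ 50) := by gcongr
    _ = 13271040 * (D * y) ^ 13 * y * (x * y) ^ 36 := by ring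
    _ = 13271040 * (s / 4) ^ 13 * y := by rw [hxy, hDy']; ring
    _ ≤ 13271040 * (s / 4) ^ 13 * (1 / 4) := by gcongr
    _ = (13271040 / 268435456) * (s ^ 12 * s) := by ring
    _ ≤ (13271040 / 268435456) * (1 * s) := by
        have : s ^ 12 ≤ 1 := pow_le_one₀ hs.le hs1
        gcongr
    _ ≤ s / 8 := by linarith

/-- **The moving front bound**, for times at most `log (2d)`. -/
theorem main_time {d : ℕ} (hd1 : 1 ≤ d) {f : (I → Bool) → ℝ} (hf : ∀ x, |f x| ≤ 1)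
    (hd : LowDeg d f) {T s : ℝ} (hT0 : 0 ≤ T) (hT1 : T ≤ Real.log (2 * d)) (hs : 0 < s)
    (hsf : s ≤ st (1 - Real.exp (-T)) f) :
    ∃ j, (s / (4 * d)) ^ 12 * Real.exp (-((200 * Real.log (4 * d / s) + 2) * T)) ≤ inf f j := by
  have hd0 : (1 : ℝ) ≤ d := by exact_mod_cast hd1
  have hdp : (0 : ℝ) < d := by linarith
  have hexpT : Real.exp (-T) ≤ 1 := Real.exp_le_one_iff.2 (by linarith)
  have hs1 : s ≤ 1 := hsf.trans (st_le_one hf (by linarith) (by linarith [Real.exp_pos (-T)]))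
  by_contra hcon
  push Not at hcon
  obtain ⟨y, hy⟩ : ∃ y, y = s / (4 * (d : ℝ)) := ⟨_, rfl⟩
  obtain ⟨lam, hlamd⟩ : ∃ lam, lam = Real.log (4 * d / s) := ⟨_, rfl⟩
  rw [← hy, ← hlamd] at hcon
  have hy0 : 0 < y := by rw [hy]; positivity
  have hdy : (d : ℝ) * y = s / 4 := by rw [hy]; field_simp
  have hdy4 : (d : ℝ) * y ≤ 1 / 4 := by rw [hdy]; linarith
  have hlam : Real.exp lam = y⁻¹ := by
    rw [hlamd, Real.exp_log (by positivity), hy, inv_div]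
  have hTlam : T ≤ lam := by
    refine hT1.trans ?_
    rw [hlamd]
    apply Real.log_le_log (by positivity)
    rw [le_div_iff₀ hs]
    nlinarith
  have hlam0 : 0 ≤ lam := hT0.trans hTlam
  have hT2d : T ≤ 2 * d := by
    have := Real.log_le_sub_one_of_pos (show (0 : ℝ) < 2 * d by positivity)
    linarith
  obtain ⟨R, hR⟩ : ∃ R, R = 200 * lam := ⟨_, rfl⟩
  have hR0 : 0 ≤ R := by rw [hR]; positivity
  obtain ⟨L0, hL0⟩ : ∃ L0, L0 = y ^ 6 * Real.exp (-((200 * lam + 2) * T)) := ⟨_, rfl⟩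
  obtain ⟨m0, hm0⟩ : ∃ m0, m0 = L0 * y ^ 8 := ⟨_, rfl⟩
  obtain ⟨W, hW⟩ : ∃ W, W = 2 + 48 * lam + 3 * ((200 * lam + 2) * T) := ⟨_, rfl⟩
  have hL0p : 0 < L0 := by rw [hL0]; positivity
  have hm0p : 0 < m0 := by rw [hm0]; positivity
  have hW0 : 0 ≤ W := by rw [hW]; positivity
  have hwc := w_cond hd0 hy0 hdy4 hlam hL0 hm0 hW
  have hpc := p_cond hd0 hy0 hdy hs hs1 hlam hT0 hTlam hW
  obtain ⟨G, hG⟩ : ∃ G, G = 48 * (d : ℝ) ^ 2 := ⟨_, rfl⟩
  have hd2 : (1 : ℝ) ≤ (d : ℝ) ^ 2 := one_le_pow₀ hd0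
  have hG1 : 1 ≤ G := by rw [hG]; linarith
  have hG0 : 0 < G := by linarith
  -- the number of steps
  obtain ⟨N, hN⟩ : ∃ N : ℕ, 1 + T * (12 * d + (R + 2) + 8 * T / s) ≤ N := exists_nat_ge _
  have hterm : 0 ≤ T * (12 * d + (R + 2) + 8 * T / s) := by positivity
  have hN1 : (1 : ℝ) ≤ N := by linarith
  have hN0 : (0 : ℝ) < N := by linarith
  obtain ⟨h, hh⟩ : ∃ h, h = T / N := ⟨_, rfl⟩
  have hh0 : 0 ≤ h := by rw [hh]; positivity
  have hhN : h * N = T := by rw [hh]; field_simp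
  have hb : ∀ a : ℝ, 0 ≤ a → a ≤ 12 * d + (R + 2) + 8 * T / s → a * h ≤ 1 := by
    intro a ha ha2
    rw [hh, mul_div_assoc', div_le_one hN0]
    have : a * T ≤ (12 * d + (R + 2) + 8 * T / s) * T := mul_le_mul_of_nonneg_right ha2 hT0
    linarith
  have h8 : 0 ≤ 8 * T / s := by positivity
  have h12 : 12 * d * h ≤ 1 := hb _ (by positivity) (by linarith)
  have hRh : (R + 2) * h ≤ 1 := hb _ (by positivity) (by linarith)
  have h8h : T * h ≤ s / 8 := by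
    have := hb (8 * T / s) h8 (by linarith)
    have e : 8 * T / s * h = 8 * (T * h) / s := by ring
    rw [e, div_le_one hs] at this
    linarith
  -- the total growth
  have hC : (1 + 24 * d * h / G) ^ N ≤ 3 := by
    have h1 : 1 + 24 * d * h / G ≤ Real.exp (24 * d * h / G) := by
      have := Real.add_one_le_exp (24 * d * h / G); linarith
    calc (1 + 24 * d * h / G) ^ N ≤ (Real.exp (24 * d * h / G)) ^ N :=
          pow_le_pow_left₀ (by positivity) h1 N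
      _ = Real.exp (24 * d * T / G) := by
          rw [← Real.exp_nat_mul]; congr 1; rw [← hhN]; ring
      _ ≤ Real.exp 1 := by
          apply Real.exp_le_exp.2
          rw [div_le_one hG0, hG]
          nlinarith
      _ ≤ 3 := by have := Real.exp_one_lt_d9; linarith
  obtain ⟨Lmax, hLmax⟩ : ∃ Lmax, Lmax = y ^ 6 := ⟨_, rfl⟩
  have hfront : L0 * Real.exp ((R + 2) * h * N) ≤ Lmax := by
    rw [hL0, hLmax, mul_assoc, ← Real.exp_add, mul_assoc (R + 2), hhN, hR]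
    simp
  have hind := induct hd1 (K := 4 * (d : ℝ)) hL0p (by linarith) le_rfl hR0 hm0p hW0 hwc hG1 hh0
    h12 hRh hC N le_rfl L0 le_rfl hfront f hf hd
  rw [hhN] at hind
  -- the initial potential
  have hPot : Pot L0 f ≤ d * y ^ 6 := by
    have h1 : Pot L0 f ≤ ∑ j, y ^ 6 * inf f j := by
      unfold Pot
      refine Finset.sum_le_sum fun j _ => ?_
      refine (phi_le_sq _ _).trans ?_
      have h2 := inf_nonneg f j
      rw [div_le_iff₀ hL0p, sq]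
      have h3 : inf f j ≤ L0 * y ^ 6 := by
        refine (hcon j).le.trans (le_of_eq ?_)
        rw [hL0]; ring
      calc inf f j * inf f j ≤ (L0 * y ^ 6) * inf f j := mul_le_mul_of_nonneg_right h3 h2
        _ = _ := by ring
    refine h1.trans ?_
    rw [← Finset.mul_sum, mul_comm]
    exact mul_le_mul_of_nonneg_right (Lib_helper9.QP.sum_inf_le hf hd) (by positivity)
  have hPot0 := Pot_nonneg hL0p f
  have q1 : G * (1 + 24 * d * h / G) ^ N * Pot L0 f ≤ s / 8 := by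
    calc G * (1 + 24 * d * h / G) ^ N * Pot L0 f ≤ G * 3 * (d * y ^ 6) := by gcongr
      _ = 144 * ((d * y) ^ 3 * y ^ 3) := by rw [hG]; ring
      _ = 144 * ((s / 4) ^ 3 * y ^ 3) := by rw [hdy]
      _ ≤ 144 * ((s / 4) ^ 3 * (1 / 4) ^ 3) := by
          have : y ≤ 1 / 4 := by nlinarith
          gcongr
      _ = 144 / 4096 * (s ^ 2 * s) := by ring
      _ ≤ 144 / 4096 * (1 * s) := by
          have : s ^ 2 ≤ 1 := pow_le_one₀ hs.le hs1
          gcongr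
      _ ≤ s / 8 := by linarith
  have hsqrt : Real.sqrt Lmax = y ^ 3 := by
    rw [hLmax, show y ^ 6 = (y ^ 3) ^ 2 by ring, Real.sqrt_sq (by positivity)]
  have q2 : (N : ℝ) * (h * (4 * (d : ℝ) ^ 2 * Real.sqrt Lmax)) ≤ s / 8 := by
    rw [hsqrt]
    calc (N : ℝ) * (h * (4 * (d : ℝ) ^ 2 * y ^ 3)) = (h * N) * (4 * (d : ℝ) ^ 2 * y ^ 3) := by ring
      _ = T * (4 * (d : ℝ) ^ 2 * y ^ 3) := by rw [hhN]
      _ ≤ (2 * d) * (4 * (d : ℝ) ^ 2 * y ^ 3) := by gcongr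
      _ = 8 * (d * y) ^ 3 := by ring
      _ = (s ^ 2 * s) / 8 := by rw [hdy]; ring
      _ ≤ (1 * s) / 8 := by
          have : s ^ 2 ≤ 1 := pow_le_one₀ hs.le hs1
          gcongr
      _ = s / 8 := by ring
  have q3 : (N : ℝ) * h ^ 2 ≤ s / 8 := by
    calc (N : ℝ) * h ^ 2 = (h * N) * h := by ring
      _ = T * h := by rw [hhN]
      _ ≤ _ := h8h
  have hy4 : y ≤ 1 / 4 := by nlinarith
  have q4 : (N : ℝ) * (G * 3 * (2 * h * (4 * (d : ℝ) ^ 2 * m0 / L0))) ≤ s / 8 := by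
    have e1 : m0 / L0 = y ^ 8 := by rw [hm0]; field_simp
    calc (N : ℝ) * (G * 3 * (2 * h * (4 * (d : ℝ) ^ 2 * m0 / L0)))
        = (h * N) * (G * 24 * (d : ℝ) ^ 2 * (m0 / L0)) := by ring
      _ = T * (G * 24 * (d : ℝ) ^ 2 * y ^ 8) := by rw [hhN, e1]
      _ ≤ (2 * d) * (G * 24 * (d : ℝ) ^ 2 * y ^ 8) := by gcongr
      _ = 2304 * ((d * y) ^ 5 * y ^ 3) := by rw [hG]; ring
      _ = 2304 * ((s / 4) ^ 5 * y ^ 3) := by rw [hdy]
      _ ≤ 2304 * ((s / 4) ^ 5 * (1 / 4) ^ 3) := by gcongr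
      _ = 2304 / 65536 * (s ^ 4 * s) := by ring
      _ ≤ 2304 / 65536 * (1 * s) := by
          have : s ^ 4 ≤ 1 := pow_le_one₀ hs.le hs1
          gcongr
      _ ≤ s / 8 := by linarith
  have q5 : (N : ℝ) * (G * 3 * (2 * h * (4 * d * PP d (4 * (d : ℝ)) R W))) ≤ s / 8 := by
    have hPP := PP_nonneg d (4 * (d : ℝ)) R W
    calc (N : ℝ) * (G * 3 * (2 * h * (4 * d * PP d (4 * (d : ℝ)) R W)))
        = (h * N) * (G * 24 * d * PP d (4 * (d : ℝ)) R W) := by ring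
      _ = T * (G * 24 * d * PP d (4 * (d : ℝ)) R W) := by rw [hhN]
      _ ≤ (2 * d) * (G * 24 * d * PP d (4 * (d : ℝ)) R W) := by gcongr
      _ = 2304 * (d : ℝ) ^ 4 * PP d (4 * (d : ℝ)) R W := by rw [hG]; ring
      _ ≤ s / 8 := by
          unfold PP
          rw [hR]
          exact hpc
  have htot : (N : ℝ) * (h * (4 * (d : ℝ) ^ 2 * Real.sqrt Lmax) + h ^ 2 +
      G * 3 * (2 * h * (4 * (d : ℝ) ^ 2 * m0 / L0 + 4 * d * PP d (4 * (d : ℝ)) R W))) =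
      (N : ℝ) * (h * (4 * (d : ℝ) ^ 2 * Real.sqrt Lmax)) + (N : ℝ) * h ^ 2 +
      (N : ℝ) * (G * 3 * (2 * h * (4 * (d : ℝ) ^ 2 * m0 / L0))) +
      (N : ℝ) * (G * 3 * (2 * h * (4 * d * PP d (4 * (d : ℝ)) R W))) := by ring
  rw [htot] at hind
  linarith

end Pool.Agent.Lib_helper30.MF
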