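import Pool.Agent.Lib_helper30.MF.Tower

/-! # The induction over the steps of the moving front -/

set_option autoImplicit false
set_option linter.unusedSectionVars false

open Finset Polynomial

namespace Pool.Agent.Lib_helper30.MF

open Pool.Agent.Lib_helper30.AA Pool.Agent.Lib_helper40.QP Pool.Agent.Lib_helper8.QP

variable {I : Type} [Fintype I] [DecidableEq I]

open Classical in
/-- the coordinates which are removed -/
noncomputable def heavy (L G : ℝ) (f : (I → Bool) → ℝ) : Finset I :=
  univ.filter (fun j => L / G ≤ inf f j)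

lemma inf_rmv_heavy {L G : ℝ} (hL : 0 < L) (hG : 1 ≤ G) (f : (I → Bool) → ℝ) (j : I) :
    inf (rmv (heavy L G f) f) j ≤ L / G := by
  by_cases hj : j ∈ heavy L G f
  · rw [inf_rmv_mem hj]; positivity
  · refine (inf_rmv_le _ _ _).trans ?_
    unfold heavy at hj
    rw [Finset.mem_filter, not_and] at hj
    exact (not_le.1 (hj (Finset.mem_univ _))).le

/-- the cost of the removal is paid by the potential -/
theorem heavy_cost {L G : ℝ} (hL : 0 < L) (hG : 1 ≤ G) (f : (I → Bool) → ℝ) :
    ∑ i ∈ heavy L G f, inf f i ≤ G * (Pot L f - Pot L (rmv (heavy L G f) f)) := by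
  have hG0 : 0 < G := by linarith
  set B := heavy L G f with hB
  have h1 : ∑ i ∈ B, phi L (inf f i) ≤ Pot L f - Pot L (rmv B f) := by
    unfold Pot
    rw [← Finset.sum_sub_distrib]
    calc ∑ i ∈ B, phi L (inf f i) = ∑ i ∈ B, (phi L (inf f i) - phi L (inf (rmv B f) i)) := by
          refine Finset.sum_congr rfl fun i hi => ?_
          rw [inf_rmv_mem hi, phi_zero, sub_zero]
      _ ≤ _ := by
          refine Finset.sum_le_sum_of_subset_of_nonneg (Finset.subset_univ _) fun j _ _ => ?_
          have := phi_mono hL (inf_nonneg (rmv B f) j) (inf_rmv_le B f j)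
          linarith
  have h2 : ∑ i ∈ B, inf f i ≤ ∑ i ∈ B, G * phi L (inf f i) := by
    refine Finset.sum_le_sum fun i hi => ?_
    rw [hB] at hi
    unfold heavy at hi
    rw [Finset.mem_filter] at hi
    have h0 := inf_nonneg f i
    rw [mul_comm, ← div_le_iff₀ hG0]
    unfold phi
    apply le_min
    · rw [div_le_div_iff₀ hG0 hL]
      have h3 : L ≤ inf f i * G := by
        have := hi.2
        rwa [div_le_iff₀ hG0] at this
      nlinarith
    · exact div_le_self h0 hG
  rw [← Finset.mul_sum] at h2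
  exact h2.trans (mul_le_mul_of_nonneg_left h1 hG0.le)

/-- **The induction.** -/
theorem induct {d : ℕ} (hd1 : 1 ≤ d) {K R m0 W G h L0 Lmax C : ℝ} (hL0 : 0 < L0) (hK1 : 1 ≤ K)
    (hK : 4 * (d : ℝ) ≤ K) (hR : 0 ≤ R) (hm0 : 0 < m0) (hW0 : 0 ≤ W)
    (hW : 2 * Real.exp 1 * (d / m0) * (d / (m0 ^ 2 / (4096 * d ^ 4))) ≤ Real.exp W)
    (hG : 1 ≤ G) (hh : 0 ≤ h) (h12 : 12 * d * h ≤ 1) (hRh : (R + 2) * h ≤ 1) {N : ℕ}
    (hC : (1 + 24 * d * h / G) ^ N ≤ C) :
    ∀ k ≤ N, ∀ L, L0 ≤ L → L * Real.exp ((R + 2) * h * k) ≤ Lmax →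
      ∀ f : (I → Bool) → ℝ, (∀ x, |f x| ≤ 1) → LowDeg d f →
        st (1 - Real.exp (-(h * k))) f ≤ G * (1 + 24 * d * h / G) ^ k * Pot L f +
          k * (h * (4 * (d : ℝ) ^ 2 * Real.sqrt Lmax) + h ^ 2 +
            G * C * (2 * h * (4 * (d : ℝ) ^ 2 * m0 / L0 + 4 * d * PP d K R W))) := by
  have hd0 : (1 : ℝ) ≤ d := by exact_mod_cast hd1
  have hG0 : 0 < G := by linarith
  set c : ℝ := 1 + 24 * d * h / G with hc
  have hc1 : 1 ≤ c := by
    rw [hc]
    have : 0 ≤ 24 * d * h / G := by positivity
    linarith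
  set Er : ℝ := 4 * (d : ℝ) ^ 2 * m0 / L0 + 4 * d * PP d K R W with hEr
  have hPP := PP_nonneg d K R W
  have hEr0 : 0 ≤ Er := by positivity
  set e : ℝ := h * (4 * (d : ℝ) ^ 2 * Real.sqrt Lmax) + h ^ 2 + G * C * (2 * h * Er) with he
  intro k
  induction k with
  | zero =>
    intro _ L hL hLmax f hf hd
    have hLpos : 0 < L := lt_of_lt_of_le hL0 hL
    simp only [Nat.cast_zero, mul_zero, neg_zero, Real.exp_zero, sub_self, pow_zero, mul_one,
      zero_mul, add_zero]
    rw [st_zero]
    exact mul_nonneg hG0.le (Pot_nonneg hLpos f)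
  | succ k ih =>
    intro hkN L hL hLmax f hf hd
    have hLpos : 0 < L := lt_of_lt_of_le hL0 hL
    set E : ℝ := Real.exp ((R + 2) * h) with hE
    have hE1 : 1 ≤ E := Real.one_le_exp (by positivity)
    have hLE : L ≤ L * E := le_mul_of_one_le_right hLpos.le hE1
    have hstep : L * E * Real.exp ((R + 2) * h * k) ≤ Lmax := by
      rw [hE, mul_assoc, ← Real.exp_add]
      refine le_trans (le_of_eq ?_) hLmax
      congr 2
      push_cast; ring
    have hLLmax : L ≤ Lmax := by
      refine le_trans ?_ hLmax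
      apply le_mul_of_one_le_right hLpos.le (Real.one_le_exp (by positivity))
    set B := heavy L G f with hB
    set F := rmv B f with hF
    have hFb : ∀ x, |F x| ≤ 1 := rmv_bdd hf B
    have hFd : LowDeg d F := lowDeg_rmv hd B
    have hFinf : ∀ j, inf F j ≤ L / G := inf_rmv_heavy hLpos hG f
    set ρ : ℝ := 1 - Real.exp (-h) with hρ
    set q : ℝ := 1 - Real.exp (-(h * k)) with hq
    have hexp1 : Real.exp (-h) ≤ 1 := Real.exp_le_one_iff.2 (by linarith)
    have hρ0 : 0 ≤ ρ := by rw [hρ]; linarith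
    have hρ1 : ρ ≤ 1 := by rw [hρ]; linarith [Real.exp_pos (-h)]
    have hρh : ρ ≤ h := by
      have := Real.add_one_le_exp (-h)
      rw [hρ]; linarith
    have hq' : 1 - Real.exp (-(h * ((k + 1 : ℕ) : ℝ))) = ρ + (1 - ρ) * q := by
      have h1 : Real.exp (-(h * ((k + 1 : ℕ) : ℝ))) = Real.exp (-h) * Real.exp (-(h * k)) := by
        rw [← Real.exp_add]; congr 1; push_cast; ring
      rw [h1, hρ, hq]; ring
    have hqt0 : 0 ≤ ρ + (1 - ρ) * q := by
      rw [← hq']
      have : Real.exp (-(h * ((k + 1 : ℕ) : ℝ))) ≤ 1 :=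
        Real.exp_le_one_iff.2 (by
          have : 0 ≤ h * ((k + 1 : ℕ) : ℝ) := by positivity
          linarith)
      linarith
    have hqt1 : ρ + (1 - ρ) * q ≤ 1 := by
      rw [← hq']
      linarith [Real.exp_pos (-(h * ((k + 1 : ℕ) : ℝ)))]
    have hck : c ^ k ≤ C := (pow_le_pow_right₀ hc1 (by omega)).trans hC
    have hck0 : 0 < c ^ k := by positivity
    have hC0 : 0 ≤ C := hck0.le.trans hck
    have hcost := heavy_cost hLpos hG f
    rw [← hB, ← hF] at hcost
    have hPF0 : 0 ≤ Pot L F := Pot_nonneg hLpos F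
    have hdiff : 0 ≤ Pot L f - Pot L F := by
      have h1 : 0 ≤ ∑ i ∈ B, inf f i := Finset.sum_nonneg fun i _ => inf_nonneg f i
      by_contra hcon
      push Not at hcon
      have := mul_neg_of_pos_of_neg hG0 hcon
      linarith
    -- the four pieces
    have p1 := st_rmv B f hqt0 hqt1
    rw [← hF] at p1
    have p2 : st ρ F ≤ h * (4 * (d : ℝ) ^ 2 * Real.sqrt Lmax) + h ^ 2 := by
      refine (st_small hFb hFd hρ0 hρ1 hFinf).trans ?_
      have h1 : Real.sqrt (L / G) ≤ Real.sqrt Lmax :=
        Real.sqrt_le_sqrt ((div_le_self hLpos.le hG).trans hLLmax)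
      have h2 : ρ ^ 2 ≤ h ^ 2 := pow_le_pow_left₀ hρ0 hρh 2
      have h3 : ρ * (4 * (d : ℝ) ^ 2 * Real.sqrt (L / G)) ≤
          h * (4 * (d : ℝ) ^ 2 * Real.sqrt Lmax) := by
        apply mul_le_mul hρh _ (by positivity) hh
        exact mul_le_mul_of_nonneg_left h1 (by positivity)
      linarith
    have p3 : rs ρ (fun R => av (fun z => st q (res R z F))) ≤
        G * c ^ k * ((1 + 24 * d * h / G) * Pot L F + 2 * h * Er) + k * e := by
      calc rs ρ (fun R => av (fun z => st q (res R z F)))
          ≤ rs ρ (fun R => G * c ^ k * av (fun z => Pot (L * E) (res R z F)) + k * e) := by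
            refine rs_mono hρ0 hρ1 fun S => ?_
            calc av (fun z => st q (res S z F))
                ≤ av (fun z => G * c ^ k * Pot (L * E) (res S z F) + k * e) :=
                  av_mono fun z => ih (by omega) (L * E) (hL.trans hLE) hstep (res S z F)
                    (fun x => hFb _) (lowDeg_res hFd S z)
              _ = _ := by rw [av_add, av_mul_left, av_const]
        _ = G * c ^ k * rs ρ (fun R => av (fun z => Pot (L * E) (res R z F))) + k * e := by
            rw [rs_add, rs_mul_left, rs_const]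
        _ ≤ _ := by
            have h1 := one_step hd1 hFb hFd hLpos hK1 hK hR hm0 hW0 hW hG hFinf hh h12 hRh
            rw [← hρ, ← hE] at h1
            have h2 : 4 * (d : ℝ) ^ 2 * m0 / L + 4 * d * PP d K R W ≤ Er := by
              rw [hEr]
              gcongr
            have h3 : 2 * h * (4 * (d : ℝ) ^ 2 * m0 / L + 4 * d * PP d K R W) ≤ 2 * h * Er :=
              mul_le_mul_of_nonneg_left h2 (by positivity)
            have h4 : G * c ^ k * rs ρ (fun R => av (fun z => Pot (L * E) (res R z F))) ≤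
                G * c ^ k * ((1 + 24 * d * h / G) * Pot L F + 2 * h * Er) :=
              mul_le_mul_of_nonneg_left (by linarith) (by positivity)
            linarith
    rw [hq']
    rw [st_tower] at p1
    rw [st_tower]
    have p4 : G * c ^ k * (2 * h * Er) ≤ G * C * (2 * h * Er) := by
      apply mul_le_mul_of_nonneg_right _ (by positivity)
      exact mul_le_mul_of_nonneg_left hck hG0.le
    have p5 : G * (Pot L f - Pot L F) ≤ G * c ^ (k + 1) * (Pot L f - Pot L F) := by
      apply mul_le_mul_of_nonneg_right _ hdiff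
      exact le_mul_of_one_le_right hG0.le (one_le_pow₀ hc1)
    have p6 : G * c ^ k * ((1 + 24 * d * h / G) * Pot L F + 2 * h * Er) =
        G * c ^ (k + 1) * Pot L F + G * c ^ k * (2 * h * Er) := by
      rw [pow_succ, hc]; ring
    rw [p6] at p3
    push_cast
    have p7 : ((k : ℝ) + 1) * e = k * e + e := by ring
    rw [p7, he]
    rw [he] at p3
    have p8 : st ρ f + rs ρ (fun R => av (fun z => st q (res R z f))) ≤
        st ρ F + rs ρ (fun R => av (fun z => st q (res R z F))) + ∑ i ∈ B, inf f i := by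
      have := p1
      rw [st_tower] at this
      exact this
    linarith

end Pool.Agent.Lib_helper30.MF
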