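import Pool.Agent.Lib_helper30.MF.Basic

/-! # The localised key lemma -/

set_option autoImplicit false
set_option linter.unusedSectionVars false

open Finset Polynomial

namespace Pool.Agent.Lib_helper30.MF

open Pool.Agent.Lib_helper30.AA Pool.Agent.Lib_helper40.QP Pool.Agent.Lib_helper8.QP

variable {I : Type} [Fintype I] [DecidableEq I]

/-- the mass of the exceptional coordinates -/
noncomputable def PP (d : ℕ) (K R W : ℝ) : ℝ :=
  360 * (d : ℝ) ^ 7 * K ^ 2 * (4 * d + 2 * W) ^ 6 * Real.exp (-R / 4)

lemma PP_nonneg (d : ℕ) (K R W : ℝ) : 0 ≤ PP d K R W := by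
  unfold PP
  have : 0 ≤ (4 * (d : ℝ) + 2 * W) ^ 6 := by positivity
  positivity

open Classical in
/-- the exceptional coordinates -/
noncomputable def badS (f : (I → Bool) → ℝ) (d : ℕ) (K R m0 : ℝ) : Finset I :=
  univ.filter (fun j => m0 ≤ inf f j ∧
        R < ∑ i ∈ univ.filter (fun i => m0 ^ 2 / (4096 * (d : ℝ) ^ 4) ≤ inf f i ∧
          inf f i ≤ K * inf f j), (vv f i j / inf f j) ^ 2)

/-- The rows which are not heavy. -/
theorem light_rows {d : ℕ} (hd1 : 1 ≤ d) {f : (I → Bool) → ℝ} (hf : ∀ x, |f x| ≤ 1)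
    (hd : LowDeg d f) {K R m0 : ℝ} (hR : 0 ≤ R) (hm0 : 0 < m0) (j : I) :
    ∑ i ∈ univ.filter (fun i => inf f i ≤ K * inf f j), vv f i j ^ 2 ≤
      (R + 1) * inf f j ^ 2 + 4 * d * m0 * inf f j +
        4 * d * inf f j * (if j ∈ badS f d K R m0 then inf f j else 0) := by
  have hd0 : (1 : ℝ) ≤ d := by exact_mod_cast hd1
  have hdpos : (0 : ℝ) < d := by linarith
  set τ : ℝ := m0 ^ 2 / (4096 * (d : ℝ) ^ 4) with hτdef
  have hτ : 0 < τ := by positivity
  have h0 := inf_nonneg f j
  have htriv : ∑ i ∈ univ.filter (fun i => inf f i ≤ K * inf f j), vv f i j ^ 2 ≤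
      4 * d * inf f j ^ 2 := by
    calc _ ≤ ∑ i, vv f i j ^ 2 :=
          Finset.sum_le_sum_of_subset_of_nonneg (Finset.filter_subset _ _)
            (fun i _ _ => sq_nonneg _)
      _ ≤ _ := Lib_helper9.QP.sum_vv_sq_le hd j
  have hbnn : 0 ≤ 4 * d * inf f j * (if j ∈ badS f d K R m0 then inf f j else 0) := by
    split_ifs <;> positivity
  have hRnn : 0 ≤ (R + 1) * inf f j ^ 2 := by positivity
  have hmnn : 0 ≤ 4 * d * m0 * inf f j := by positivity
  by_cases hlt : inf f j < m0
  · have h1 : 4 * d * inf f j ^ 2 ≤ 4 * d * m0 * inf f j := by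
      have : inf f j * inf f j ≤ m0 * inf f j := mul_le_mul_of_nonneg_right hlt.le h0
      nlinarith
    linarith
  · push Not at hlt
    have hpos : 0 < inf f j := lt_of_lt_of_le hm0 hlt
    by_cases hb : j ∈ badS f d K R m0
    · rw [if_pos hb] at hbnn ⊢
      have : 4 * d * inf f j ^ 2 = 4 * d * inf f j * inf f j := by ring
      linarith
    · rw [if_neg hb, mul_zero, add_zero]
      have hgood : ∑ i ∈ univ.filter (fun i => τ ≤ inf f i ∧ inf f i ≤ K * inf f j),
          (vv f i j / inf f j) ^ 2 ≤ R := by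
        by_contra hcon
        push Not at hcon
        apply hb
        unfold badS
        rw [Finset.mem_filter]
        refine ⟨Finset.mem_univ _, hlt, ?_⟩
        convert hcon
      -- super-light part
      have hsl : (∑ i ∈ univ.filter (fun i => inf f i < τ), (vv f i j / inf f j) ^ 2) ≤ 1 := by
        set B : ℝ := 2 * Real.sqrt τ / Real.sqrt (inf f j) with hB
        have hs0 : 0 < Real.sqrt (inf f j) := Real.sqrt_pos.2 hpos
        have hsτ : 0 < Real.sqrt τ := Real.sqrt_pos.2 hτ
        have hBpos : 0 < B := by positivity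
        have hA : ∀ i ∈ univ.filter (fun i => inf f i < τ), |vv f i j| ≤ B * inf f j := by
          intro i hi
          rw [Finset.mem_filter] at hi
          have h2 := Lib_helper9.QP.vv_sq_le f i j
          have h3 : vv f i j ^ 2 ≤ (B * inf f j) ^ 2 := by
            calc vv f i j ^ 2 ≤ 4 * inf f j * inf f i := h2
              _ ≤ 4 * inf f j * τ := by
                  have := hi.2.le
                  gcongr
              _ = (B * inf f j) ^ 2 := by
                  rw [hB, mul_pow, div_pow, mul_pow, Real.sq_sqrt hτ.le,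
                    Real.sq_sqrt h0]
                  field_simp
                  norm_num
          exact abs_le_of_sq_le_sq h3 (by positivity)
        have h4 := Lib_helper96.QP.superlight hd1 hf hd hpos _ hBpos hA
        have h5 : Real.sqrt τ = m0 / (64 * (d : ℝ) ^ 2) := by
          rw [hτdef, Real.sqrt_eq_iff_mul_self_eq (by positivity) (by positivity)]
          field_simp
          norm_num
        have h6 : 32 * (d : ℝ) ^ 2 * B ≤ 1 * Real.sqrt (inf f j) := by
          rw [hB, h5, one_mul, mul_div_assoc', div_le_iff₀ hs0, ← sq, Real.sq_sqrt h0]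
          calc 32 * (d : ℝ) ^ 2 * (2 * (m0 / (64 * (d : ℝ) ^ 2))) = m0 := by
                field_simp; norm_num
            _ ≤ inf f j := hlt
        exact le_of_mul_le_mul_right (h4.trans h6) hs0
      have hsplit : ∑ i ∈ univ.filter (fun i => inf f i ≤ K * inf f j),
          (vv f i j / inf f j) ^ 2 ≤ R + 1 := by
        calc ∑ i ∈ univ.filter (fun i => inf f i ≤ K * inf f j), (vv f i j / inf f j) ^ 2
            ≤ ∑ i ∈ univ.filter (fun i => τ ≤ inf f i ∧ inf f i ≤ K * inf f j) ∪
                univ.filter (fun i => inf f i < τ), (vv f i j / inf f j) ^ 2 := by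
              apply Finset.sum_le_sum_of_subset_of_nonneg
              · intro i hi
                simp only [Finset.mem_filter, Finset.mem_univ, true_and,
                  Finset.mem_union] at *
                rcases lt_or_ge (inf f i) τ with h | h
                · right; exact h
                · left; exact ⟨h, hi⟩
              · intro i _ _; positivity
          _ ≤ ∑ i ∈ univ.filter (fun i => τ ≤ inf f i ∧ inf f i ≤ K * inf f j),
                (vv f i j / inf f j) ^ 2 +
              ∑ i ∈ univ.filter (fun i => inf f i < τ), (vv f i j / inf f j) ^ 2 := by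
              rw [← Finset.sum_union_inter]
              have : 0 ≤ ∑ i ∈ univ.filter (fun i => τ ≤ inf f i ∧ inf f i ≤ K * inf f j) ∩
                univ.filter (fun i => inf f i < τ), (vv f i j / inf f j) ^ 2 :=
                Finset.sum_nonneg fun i _ => by positivity
              linarith
          _ ≤ R + 1 := add_le_add hgood hsl
      have h7 : ∑ i ∈ univ.filter (fun i => inf f i ≤ K * inf f j), vv f i j ^ 2 =
          inf f j ^ 2 * ∑ i ∈ univ.filter (fun i => inf f i ≤ K * inf f j),
            (vv f i j / inf f j) ^ 2 := by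
        rw [Finset.mul_sum]
        refine Finset.sum_congr rfl fun i _ => ?_
        field_simp
      rw [h7]
      calc inf f j ^ 2 * ∑ i ∈ univ.filter (fun i => inf f i ≤ K * inf f j),
            (vv f i j / inf f j) ^ 2 ≤ inf f j ^ 2 * (R + 1) := by gcongr
        _ ≤ _ := by linarith

/-- The heavy rows, for a fixed row. -/
theorem heavy_row {d : ℕ} {f : (I → Bool) → ℝ} (hd : LowDeg d f) {K L : ℝ} (hL : 0 < L)
    (hK0 : 0 < K) (hK : 4 * (d : ℝ) ≤ K) (i : I) :
    ∑ j ∈ univ.filter (fun j => inf f j < L ∧ ¬ inf f i ≤ K * inf f j), vv f i j ^ 2 / L ≤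
      phi L (inf f i) + 4 * d / L ^ 2 * inf f i ^ 3 := by
  have hi0 := inf_nonneg f i
  have hd0 : (0 : ℝ) ≤ d := Nat.cast_nonneg d
  have hvv : ∀ j, inf f j = 0 → vv f i j = 0 := fun j hj => by
    have := Lib_helper9.QP.abs_vv_le f i j
    rw [hj] at this
    exact abs_eq_zero.1 (le_antisymm this (abs_nonneg _))
  have hid : ∀ j, vv f i j ^ 2 = inf f j * (vv f i j ^ 2 / inf f j) := fun j => by
    by_cases h : inf f j = 0
    · rw [h, hvv j h]; simp
    · field_simp
  have hnn : ∀ j, 0 ≤ vv f i j ^ 2 / inf f j := fun j => div_nonneg (sq_nonneg _) (inf_nonneg f j)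
  have h3 : 0 ≤ 4 * d / L ^ 2 * inf f i ^ 3 := by positivity
  have h4 := Lib_helper9.QP.sum_vv_sq_div_le hd i
  rcases lt_or_ge (inf f i) L with h | h
  · rw [phi_of_le hL hi0 h.le]
    suffices ∑ j ∈ univ.filter (fun j => inf f j < L ∧ ¬ inf f i ≤ K * inf f j),
        vv f i j ^ 2 / L ≤ inf f i ^ 2 / L by linarith
    calc ∑ j ∈ univ.filter (fun j => inf f j < L ∧ ¬ inf f i ≤ K * inf f j), vv f i j ^ 2 / L
        ≤ ∑ j ∈ univ.filter (fun j => inf f j < L ∧ ¬ inf f i ≤ K * inf f j),
            (inf f i / K) / L * (vv f i j ^ 2 / inf f j) := by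
          refine Finset.sum_le_sum fun j hj => ?_
          rw [Finset.mem_filter] at hj
          have h5 : inf f j ≤ inf f i / K := by
            rw [le_div_iff₀ hK0]
            have := hj.2.2
            push Not at this
            linarith
          calc vv f i j ^ 2 / L = inf f j * (vv f i j ^ 2 / inf f j) / L := by rw [← hid j]
            _ ≤ (inf f i / K) * (vv f i j ^ 2 / inf f j) / L := by
                apply div_le_div_of_nonneg_right _ hL.le
                exact mul_le_mul_of_nonneg_right h5 (hnn j)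
            _ = _ := by ring
      _ ≤ ∑ j, (inf f i / K) / L * (vv f i j ^ 2 / inf f j) := by
          refine Finset.sum_le_sum_of_subset_of_nonneg (Finset.filter_subset _ _)
            fun j _ _ => mul_nonneg (by positivity) (hnn j)
      _ = (inf f i / K) / L * ∑ j, vv f i j ^ 2 / inf f j := by rw [Finset.mul_sum]
      _ ≤ (inf f i / K) / L * (4 * d * inf f i) := by
          exact mul_le_mul_of_nonneg_left h4 (by positivity)
      _ = (4 * d / K) * (inf f i ^ 2 / L) := by ring
      _ ≤ 1 * (inf f i ^ 2 / L) := by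
          apply mul_le_mul_of_nonneg_right _ (by positivity)
          rw [div_le_one hK0]; exact hK
      _ = _ := one_mul _
  · have h5 : 0 ≤ phi L (inf f i) := phi_nonneg hL hi0
    suffices ∑ j ∈ univ.filter (fun j => inf f j < L ∧ ¬ inf f i ≤ K * inf f j),
        vv f i j ^ 2 / L ≤ 4 * d / L ^ 2 * inf f i ^ 3 by linarith
    calc ∑ j ∈ univ.filter (fun j => inf f j < L ∧ ¬ inf f i ≤ K * inf f j), vv f i j ^ 2 / L
        ≤ ∑ j ∈ univ.filter (fun j => inf f j < L ∧ ¬ inf f i ≤ K * inf f j),
            vv f i j ^ 2 / inf f j := by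
          refine Finset.sum_le_sum fun j hj => ?_
          rw [Finset.mem_filter] at hj
          rw [div_le_iff₀ hL]
          calc vv f i j ^ 2 = (vv f i j ^ 2 / inf f j) * inf f j := by rw [mul_comm, ← hid j]
            _ ≤ (vv f i j ^ 2 / inf f j) * L := mul_le_mul_of_nonneg_left hj.2.1.le (hnn j)
      _ ≤ ∑ j, vv f i j ^ 2 / inf f j :=
          Finset.sum_le_sum_of_subset_of_nonneg (Finset.filter_subset _ _) fun j _ _ => hnn j
      _ ≤ 4 * d * inf f i := h4
      _ ≤ 4 * d / L ^ 2 * inf f i ^ 3 := by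
          rw [div_mul_eq_mul_div, le_div_iff₀ (by positivity)]
          have h6 : L ^ 2 ≤ inf f i ^ 2 := pow_le_pow_left₀ hL.le h 2
          have h7 : 4 * d * inf f i * L ^ 2 ≤ 4 * d * inf f i * inf f i ^ 2 :=
            mul_le_mul_of_nonneg_left h6 (by positivity)
          nlinarith

/-- **The localised key lemma.** -/
theorem key_loc {d : ℕ} (hd1 : 1 ≤ d) {f : (I → Bool) → ℝ} (hf : ∀ x, |f x| ≤ 1)
    (hd : LowDeg d f) {L K R m0 W : ℝ} (hL : 0 < L) (hK1 : 1 ≤ K) (hK : 4 * (d : ℝ) ≤ K)
    (hR : 0 ≤ R) (hm0 : 0 < m0) (hW0 : 0 ≤ W)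
    (hW : 2 * Real.exp 1 * (d / m0) * (d / (m0 ^ 2 / (4096 * d ^ 4))) ≤ Real.exp W) :
    ∑ j, ∑ i, (if inf f j < L then 1 / L else 0) * vv f i j ^ 2 ≤
      (R + 2) * ∑ j, phi L (inf f j) + (4 * (d : ℝ) ^ 2 * m0 / L + 4 * d * PP d K R W) +
        4 * d / L ^ 2 * ∑ j, inf f j ^ 3 := by
  have hd0 : (1 : ℝ) ≤ d := by exact_mod_cast hd1
  have hK0 : 0 < K := by linarith
  have hphi : ∀ j, 0 ≤ phi L (inf f j) := fun j => phi_nonneg hL (inf_nonneg f j)
  -- the mass of the exceptional coordinates
  have hbad : ∑ j ∈ badS f d K R m0, inf f j ≤ PP d K R W := by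
    have := cti hd1 hf hd hK1 (R := R) (τ := m0 ^ 2 / (4096 * (d : ℝ) ^ 4)) (by positivity)
      hm0 hW0 hW
    unfold badS PP
    convert this using 2
  -- splitting
  have hsplit : ∀ j, ∑ i, (if inf f j < L then 1 / L else 0) * vv f i j ^ 2 ≤
      ((R + 1) * phi L (inf f j) + 4 * d * m0 / L * inf f j +
        4 * d * (if j ∈ badS f d K R m0 then inf f j else 0)) +
      ∑ i, (if inf f j < L ∧ ¬ inf f i ≤ K * inf f j then vv f i j ^ 2 / L else 0) := by
    intro j
    have h0 := inf_nonneg f j
    have hbnn : 0 ≤ (if j ∈ badS f d K R m0 then inf f j else 0) := by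
      split_ifs <;> [exact h0; exact le_rfl]
    by_cases hj : inf f j < L
    · simp only [hj, if_true, true_and]
      have h1 := Finset.sum_filter_add_sum_filter_not univ (fun i => inf f i ≤ K * inf f j)
        (fun i => 1 / L * vv f i j ^ 2)
      rw [← h1]
      have h2 : ∑ i ∈ univ.filter (fun i => inf f i ≤ K * inf f j), 1 / L * vv f i j ^ 2 ≤
          (R + 1) * phi L (inf f j) + 4 * d * m0 / L * inf f j +
            4 * d * (if j ∈ badS f d K R m0 then inf f j else 0) := by
        rw [← Finset.mul_sum]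
        calc 1 / L * ∑ i ∈ univ.filter (fun i => inf f i ≤ K * inf f j), vv f i j ^ 2
            ≤ 1 / L * ((R + 1) * inf f j ^ 2 + 4 * d * m0 * inf f j +
              4 * d * inf f j * (if j ∈ badS f d K R m0 then inf f j else 0)) :=
              mul_le_mul_of_nonneg_left (light_rows hd1 hf hd hR hm0 j) (by positivity)
          _ = (R + 1) * (inf f j ^ 2 / L) + 4 * d * m0 / L * inf f j +
              4 * d * (inf f j / L) * (if j ∈ badS f d K R m0 then inf f j else 0) := by ring
          _ ≤ _ := by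
              rw [phi_of_le hL h0 hj.le]
              have h3 : inf f j / L ≤ 1 := by rw [div_le_one hL]; exact hj.le
              have h4 : 4 * d * (inf f j / L) * (if j ∈ badS f d K R m0 then inf f j else 0) ≤
                  4 * d * 1 * (if j ∈ badS f d K R m0 then inf f j else 0) := by gcongr
              linarith
      have h3 : ∑ i ∈ univ.filter (fun i => ¬ inf f i ≤ K * inf f j), 1 / L * vv f i j ^ 2 =
          ∑ i, (if ¬ inf f i ≤ K * inf f j then vv f i j ^ 2 / L else 0) := by
        rw [Finset.sum_filter]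
        refine Finset.sum_congr rfl fun i _ => ?_
        split_ifs <;> ring
      rw [h3]
      linarith
    · simp only [hj, if_false, false_and, zero_mul, Finset.sum_const_zero, add_zero]
      have := hphi j
      have : 0 ≤ 4 * d * m0 / L * inf f j := by positivity
      positivity
  have hheavy : ∑ j, ∑ i, (if inf f j < L ∧ ¬ inf f i ≤ K * inf f j then
      vv f i j ^ 2 / L else 0) ≤ ∑ i, (phi L (inf f i) + 4 * d / L ^ 2 * inf f i ^ 3) := by
    rw [Finset.sum_comm]
    refine Finset.sum_le_sum fun i _ => ?_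
    rw [← Finset.sum_filter]
    exact heavy_row hd hL hK0 hK i
  calc ∑ j, ∑ i, (if inf f j < L then 1 / L else 0) * vv f i j ^ 2
      ≤ ∑ j, (((R + 1) * phi L (inf f j) + 4 * d * m0 / L * inf f j +
        4 * d * (if j ∈ badS f d K R m0 then inf f j else 0)) +
      ∑ i, (if inf f j < L ∧ ¬ inf f i ≤ K * inf f j then vv f i j ^ 2 / L else 0)) :=
        Finset.sum_le_sum fun j _ => hsplit j
    _ = ((R + 1) * ∑ j, phi L (inf f j) + 4 * d * m0 / L * ∑ j, inf f j +
          4 * d * ∑ j ∈ badS f d K R m0, inf f j) +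
        ∑ j, ∑ i, (if inf f j < L ∧ ¬ inf f i ≤ K * inf f j then vv f i j ^ 2 / L else 0) := by
        rw [Finset.sum_add_distrib, Finset.sum_add_distrib, Finset.sum_add_distrib,
          ← Finset.mul_sum, ← Finset.mul_sum, ← Finset.mul_sum, Finset.sum_ite_mem,
          Finset.univ_inter]
    _ ≤ ((R + 1) * ∑ j, phi L (inf f j) + 4 * d * m0 / L * d + 4 * d * PP d K R W) +
        ∑ i, (phi L (inf f i) + 4 * d / L ^ 2 * inf f i ^ 3) := by
        have h1 := Lib_helper9.QP.sum_inf_le hf hd
        gcongr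
    _ = _ := by
        rw [Finset.sum_add_distrib, ← Finset.mul_sum]
        ring

end Pool.Agent.Lib_helper30.MF
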