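import Pool.Agent.Lib_helper30.MF.Key

/-! # One step of the moving front -/

set_option autoImplicit false
set_option linter.unusedSectionVars false

open Finset Polynomial

namespace Pool.Agent.Lib_helper30.MF

open Pool.Agent.Lib_helper30.AA Pool.Agent.Lib_helper40.QP Pool.Agent.Lib_helper8.QP

variable {I : Type} [Fintype I] [DecidableEq I]

/-- the potential with front `L` -/
noncomputable def Pot (L : ℝ) (f : (I → Bool) → ℝ) : ℝ := ∑ j, phi L (inf f j)

lemma Pot_nonneg {L : ℝ} (hL : 0 < L) (f : (I → Bool) → ℝ) : 0 ≤ Pot L f :=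
  Finset.sum_nonneg fun j _ => phi_nonneg hL (inf_nonneg f j)

/-- The flow of the potential with a fixed front. -/
theorem pot_flow {d : ℕ} (hd1 : 1 ≤ d) {f : (I → Bool) → ℝ} (hf : ∀ x, |f x| ≤ 1)
    (hd : LowDeg d f) {L K R m0 W : ℝ} (hL : 0 < L) (hK1 : 1 ≤ K) (hK : 4 * (d : ℝ) ≤ K)
    (hR : 0 ≤ R) (hm0 : 0 < m0) (hW0 : 0 ≤ W)
    (hW : 2 * Real.exp 1 * (d / m0) * (d / (m0 ^ 2 / (4096 * d ^ 4))) ≤ Real.exp W)
    {ρ : ℝ} (hρ0 : 0 ≤ ρ) (hρ1 : ρ < 1) {Cb : ℝ}
    (hCb : (∑ j, inf f j ^ 3) * (1 - ρ) ^ (-(12 * (d : ℝ))) ≤ Cb) :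
    rs ρ (fun S => av (fun z => Pot L (res S z f))) +
      (4 * (d : ℝ) ^ 2 * m0 / L + 4 * d * PP d K R W + 4 * d / L ^ 2 * Cb) / (R + 2) ≤
    (Pot L f + (4 * (d : ℝ) ^ 2 * m0 / L + 4 * d * PP d K R W + 4 * d / L ^ 2 * Cb) / (R + 2)) *
      (1 - ρ) ^ (-(R + 2)) := by
  have h := gronwall_Icc (F := fun ρ => rs ρ (fun S => av (fun z => Pot L (res S z f))))
    (A := R + 2) (B := 4 * (d : ℝ) ^ 2 * m0 / L + 4 * d * PP d K R W + 4 * d / L ^ 2 * Cb)
    (by linarith) hρ0 hρ1 (fun x hx => ?_)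
  · have h2 : rs 0 (fun S => av (fun z => Pot L (res S z f))) = Pot L f :=
      rs_pot_zero (phi L) f
    rw [h2] at h
    exact h
  · have hx1 : x < 1 := lt_of_le_of_lt hx.2 hρ1
    obtain ⟨F', h1, h2⟩ := flow_deriv (phi L) (fun m => if m < L then 1 / L else 0)
      (fun m hm => by rw [phi_zero]; exact phi_nonneg hL hm)
      (fun m _ => by split_ifs <;> positivity)
      (fun m v hm _ => phi_step hL hm) f hx.1 hx1
    refine ⟨F', h1, h2.trans ?_⟩
    have hcube : rs x (fun S => av (fun z => ∑ j, inf (res S z f) j ^ 3)) ≤ Cb := by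
      refine (cube_flow hd1 hd hx.1 hx1).trans (le_trans ?_ hCb)
      apply mul_le_mul_of_nonneg_left
      · apply Real.rpow_le_rpow_of_nonpos (by linarith [hx.2]) (by linarith [hx.2])
        have : (0 : ℝ) ≤ d := Nat.cast_nonneg d
        linarith
      · exact Finset.sum_nonneg fun j _ => pow_nonneg (inf_nonneg f j) 3
    calc rs x (fun S => av (fun z =>
          ∑ j, ∑ i, (if inf (res S z f) j < L then 1 / L else 0) * vv (res S z f) i j ^ 2))
        ≤ rs x (fun S => (R + 2) * av (fun z => Pot L (res S z f)) +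
            ((4 * (d : ℝ) ^ 2 * m0 / L + 4 * d * PP d K R W) +
            4 * d / L ^ 2 * av (fun z => ∑ j, inf (res S z f) j ^ 3))) := by
          refine rs_mono hx.1 hx1.le fun S => ?_
          calc _ ≤ av (fun z => (R + 2) * Pot L (res S z f) +
                ((4 * (d : ℝ) ^ 2 * m0 / L + 4 * d * PP d K R W) +
                4 * d / L ^ 2 * ∑ j, inf (res S z f) j ^ 3)) := by
                refine av_mono fun z => ?_
                have := key_loc hd1 (f := res S z f) (fun y => hf _) (lowDeg_res hd S z) hL hK1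
                  hK hR hm0 hW0 hW
                unfold Pot
                linarith
            _ = _ := by
                rw [av_add, av_mul_left, av_add, av_const, av_mul_left]
      _ = (R + 2) * rs x (fun S => av (fun z => Pot L (res S z f))) +
            ((4 * (d : ℝ) ^ 2 * m0 / L + 4 * d * PP d K R W) +
            4 * d / L ^ 2 * rs x (fun S => av (fun z => ∑ j, inf (res S z f) j ^ 3))) := by
          rw [rs_add, rs_mul_left, rs_add, rs_const, rs_mul_left]
      _ ≤ _ := by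
          have h3 : 4 * d / L ^ 2 * rs x (fun S => av (fun z => ∑ j, inf (res S z f) j ^ 3)) ≤
              4 * d / L ^ 2 * Cb := mul_le_mul_of_nonneg_left hcube (by positivity)
          linarith

/-- **One step of the moving front.** -/
theorem one_step {d : ℕ} (hd1 : 1 ≤ d) {f : (I → Bool) → ℝ} (hf : ∀ x, |f x| ≤ 1)
    (hd : LowDeg d f) {L K R m0 W G h : ℝ} (hL : 0 < L) (hK1 : 1 ≤ K) (hK : 4 * (d : ℝ) ≤ K)
    (hR : 0 ≤ R) (hm0 : 0 < m0) (hW0 : 0 ≤ W)
    (hW : 2 * Real.exp 1 * (d / m0) * (d / (m0 ^ 2 / (4096 * d ^ 4))) ≤ Real.exp W)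
    (hG : 1 ≤ G) (hinf : ∀ j, inf f j ≤ L / G) (hh : 0 ≤ h) (h12 : 12 * d * h ≤ 1)
    (hRh : (R + 2) * h ≤ 1) :
    rs (1 - Real.exp (-h)) (fun S => av (fun z => Pot (L * Real.exp ((R + 2) * h)) (res S z f))) ≤
      (1 + 24 * d * h / G) * Pot L f +
        2 * h * (4 * (d : ℝ) ^ 2 * m0 / L + 4 * d * PP d K R W) := by
  have hd0 : (1 : ℝ) ≤ d := by exact_mod_cast hd1
  have hG0 : 0 < G := by linarith
  set E : ℝ := Real.exp ((R + 2) * h) with hE
  have hE1 : 1 ≤ E := Real.one_le_exp (by positivity)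
  have hE0 : 0 < E := by linarith
  set L' : ℝ := L * E with hL'
  have hLL' : L ≤ L' := le_mul_of_one_le_right hL.le hE1
  have hL'0 : 0 < L' := by positivity
  set ρ : ℝ := 1 - Real.exp (-h) with hρ
  have hexp1 : Real.exp (-h) ≤ 1 := Real.exp_le_one_iff.2 (by linarith)
  have hρ0 : 0 ≤ ρ := by rw [hρ]; linarith
  have hρ1 : ρ < 1 := by rw [hρ]; linarith [Real.exp_pos (-h)]
  have h1ρ : 1 - ρ = Real.exp (-h) := by rw [hρ]; ring
  have hpow : ∀ a : ℝ, (1 - ρ) ^ (-a) = Real.exp (a * h) := fun a => by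
    rw [h1ρ, ← Real.exp_mul]; congr 1; ring
  set S2 : ℝ := ∑ j, inf f j ^ 2 with hS2
  have hS20 : 0 ≤ S2 := Finset.sum_nonneg fun j _ => sq_nonneg _
  have hinfL : ∀ j, inf f j ≤ L := fun j => (hinf j).trans (div_le_self hL.le hG)
  have hPot : Pot L f = S2 / L := by
    unfold Pot
    rw [hS2, Finset.sum_div]
    exact Finset.sum_congr rfl fun j _ => phi_of_le hL (inf_nonneg f j) (hinfL j)
  have hPot' : Pot L' f = S2 / L' := by
    unfold Pot
    rw [hS2, Finset.sum_div]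
    exact Finset.sum_congr rfl fun j _ =>
      phi_of_le hL'0 (inf_nonneg f j) ((hinfL j).trans hLL')
  have hexp3 : Real.exp 1 ≤ 3 := by
    have := Real.exp_one_lt_d9; linarith
  have hcube : (∑ j, inf f j ^ 3) * (1 - ρ) ^ (-(12 * (d : ℝ))) ≤ (L / G * S2) * 3 := by
    apply mul_le_mul _ _ (Real.rpow_nonneg (by linarith) _) (by positivity)
    · rw [hS2, Finset.mul_sum]
      refine Finset.sum_le_sum fun j _ => ?_
      have h0 := inf_nonneg f j
      calc inf f j ^ 3 = inf f j * inf f j ^ 2 := by ring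
        _ ≤ L / G * inf f j ^ 2 := mul_le_mul_of_nonneg_right (hinf j) (sq_nonneg _)
    · rw [hpow]
      refine le_trans (Real.exp_le_exp.2 h12) hexp3
  have hfl := pot_flow hd1 hf hd hL'0 hK1 hK hR hm0 hW0 hW hρ0 hρ1 hcube
  set Er' : ℝ := 4 * (d : ℝ) ^ 2 * m0 / L' + 4 * d * PP d K R W with hEr'
  set Er : ℝ := 4 * (d : ℝ) ^ 2 * m0 / L + 4 * d * PP d K R W with hEr
  have hPP := PP_nonneg d K R W
  have hEr'0 : 0 ≤ Er' := by positivity
  have hErEr' : Er' ≤ Er := by
    rw [hEr', hEr]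
    gcongr
  set C3 : ℝ := 4 * d / L' ^ 2 * (L / G * S2 * 3) with hC3
  have hC30 : 0 ≤ C3 := by positivity
  have hC3le : C3 ≤ 12 * d / G * (S2 / L) := by
    rw [hC3]
    have e1 : 12 * d / G * (S2 / L) = (12 * d * S2 / G) * (1 / L) := by ring
    have e2 : 4 * d / L' ^ 2 * (L / G * S2 * 3) = (12 * d * S2 / G) * (L / L' ^ 2) := by ring
    rw [e1, e2]
    apply mul_le_mul_of_nonneg_left _ (by positivity)
    rw [div_le_div_iff₀ (by positivity) hL, one_mul, ← sq]
    exact pow_le_pow_left₀ hL.le hLL' 2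
  have hR2 : 0 < R + 2 := by linarith
  rw [hpow] at hfl
  have hexp : Real.exp ((R + 2) * h) - 1 ≤ 2 * ((R + 2) * h) := by
    have h0 : 0 ≤ (R + 2) * h := by positivity
    have := Real.exp_bound' h0 hRh (n := 2) (by norm_num)
    simp [Finset.sum_range_succ] at this
    nlinarith
  have hmain : rs ρ (fun S => av (fun z => Pot L' (res S z f))) ≤
      Pot L' f * E + (Er' + C3) / (R + 2) * (E - 1) := by
    rw [← hE] at hfl
    have e1 : Er' + C3 = 4 * (d : ℝ) ^ 2 * m0 / L' + 4 * d * PP d K R W +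
        4 * d / L' ^ 2 * (L / G * S2 * 3) := by rw [hEr', hC3]
    rw [e1]
    linarith
  have h4 : Pot L' f * E = Pot L f := by
    rw [hPot, hPot', hL']
    field_simp
  rw [h4] at hmain
  have h5 : (Er' + C3) / (R + 2) * (E - 1) ≤ 2 * h * (Er' + C3) := by
    calc (Er' + C3) / (R + 2) * (E - 1) ≤ (Er' + C3) / (R + 2) * (2 * ((R + 2) * h)) :=
          mul_le_mul_of_nonneg_left hexp (by positivity)
      _ = _ := by field_simp
  calc rs ρ (fun S => av (fun z => Pot L' (res S z f)))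
      ≤ Pot L f + 2 * h * (Er' + C3) := by linarith
    _ ≤ Pot L f + 2 * h * (Er + 12 * d / G * (S2 / L)) := by gcongr
    _ = _ := by rw [hPot]; ring

end Pool.Agent.Lib_helper30.MF
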