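import Pool.Agent.Lib_helper30.MF.Step

/-! # Stability sums: tower identity, removal of coordinates, the first step -/

set_option autoImplicit false
set_option linter.unusedSectionVars false

open Finset Polynomial

namespace Pool.Agent.Lib_helper30.MF

open Pool.Agent.Lib_helper30.AA Pool.Agent.Lib_helper40.QP Pool.Agent.Lib_helper8.QP

variable {I : Type} [Fintype I] [DecidableEq I]

/-- all levels -/
noncomputable def fs (q : ℝ) (f : (I → Bool) → ℝ) : ℝ := ∑ S : Finset I, q ^ S.card * coef f S ^ 2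

/-- the stability sum `∑_{S ≠ ∅} q^|S| f^(S)^2` -/
noncomputable def st (q : ℝ) (f : (I → Bool) → ℝ) : ℝ :=
  ∑ S ∈ univ.erase (∅ : Finset I), q ^ S.card * coef f S ^ 2

lemma fs_eq (q : ℝ) (f : (I → Bool) → ℝ) : fs q f = coef f ∅ ^ 2 + st q f := by
  unfold fs st
  rw [← Finset.add_sum_erase _ _ (Finset.mem_univ (∅ : Finset I))]
  simp

/-- characters at a mixed point -/
lemma chi_mix (U R : Finset I) (z x : I → Bool) :
    chi U (fun i => if i ∈ R then z i else x i) = chi (U ∩ R) z * chi (U \ R) x := by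
  rw [Lib_helper8.QP.chi_eq, Lib_helper8.QP.chi_eq, Lib_helper8.QP.chi_eq,
    ← Finset.prod_inter_mul_prod_sdiff U R]
  congr 1
  · refine Finset.prod_congr rfl fun i hi => ?_
    rw [if_pos (Finset.mem_inter.1 hi).2]
  · refine Finset.prod_congr rfl fun i hi => ?_
    rw [if_neg (Finset.mem_sdiff.1 hi).2]

lemma coef_res (R S : Finset I) (z : I → Bool) (f : (I → Bool) → ℝ) :
    coef (res R z f) S = ∑ U : Finset I, (if U \ R = S then coef f U else 0) * chi (U ∩ R) z := by
  have h1 : res R z f = fun x => ∑ U : Finset I, (coef f U * chi (U ∩ R) z) * chi (U \ R) x := by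
    funext x
    unfold res
    rw [inversion f]
    refine Finset.sum_congr rfl fun U _ => ?_
    rw [chi_mix]; ring
  rw [h1, coef_sum]
  refine Finset.sum_congr rfl fun U _ => ?_
  rw [coef_const_mul, coef_chi]
  split_ifs with h <;> simp

lemma av_coef_res_sq (R S : Finset I) (f : (I → Bool) → ℝ) :
    av (fun z => coef (res R z f) S ^ 2) =
      ∑ U : Finset I, if U \ R = S then coef f U ^ 2 else 0 := by
  have h1 : ∀ z, coef (res R z f) S ^ 2 = ∑ U : Finset I, ∑ V : Finset I,
      ((if U \ R = S then coef f U else 0) * (if V \ R = S then coef f V else 0)) *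
        (chi (U ∩ R) z * chi (V ∩ R) z) := by
    intro z
    rw [coef_res, sq, Finset.sum_mul_sum]
    exact Finset.sum_congr rfl fun U _ => Finset.sum_congr rfl fun V _ => by ring
  simp_rw [h1]
  rw [av_sum]
  refine Finset.sum_congr rfl fun U _ => ?_
  rw [av_sum]
  simp_rw [av_mul_left, Lib_helper83.QP.av_chi_mul_chi]
  rw [Finset.sum_eq_single U]
  · simp only [if_true, mul_one]
    split_ifs <;> ring
  · intro V _ hVU
    by_cases hU : U \ R = S
    · by_cases hV : V \ R = S
      · rw [if_neg (show ¬ U ∩ R = V ∩ R from fun h => hVU ?_)]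
        · ring
        · rw [← Finset.sdiff_union_inter V R, ← Finset.sdiff_union_inter U R, hU, hV, h]
      · rw [if_neg hV]; ring
    · rw [if_neg hU]; ring
  · intro h; exact absurd (Finset.mem_univ _) h

lemma sum_weights (ρ q : ℝ) (U : Finset I) :
    ∑ R : Finset I, ρ ^ R.card * (1 - ρ) ^ (Rᶜ).card * q ^ (U \ R).card =
      (ρ + (1 - ρ) * q) ^ U.card := by
  have h := Finset.prod_add (fun _ : I => ρ) (fun i => if i ∈ U then (1 - ρ) * q else 1 - ρ)
    (Finset.univ : Finset I)
  rw [Finset.powerset_univ] at h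
  have h1 : ∏ i : I, (ρ + if i ∈ U then (1 - ρ) * q else 1 - ρ) =
      (ρ + (1 - ρ) * q) ^ U.card := by
    have : ∀ i : I, (ρ + if i ∈ U then (1 - ρ) * q else 1 - ρ) =
        if i ∈ U then ρ + (1 - ρ) * q else 1 := by
      intro i; split_ifs <;> ring
    simp_rw [this]
    rw [Finset.prod_ite]
    simp
  rw [h1] at h
  rw [h]
  refine Finset.sum_congr rfl fun R _ => ?_
  rw [Finset.prod_const, mul_assoc]
  congr 1
  rw [← Finset.compl_eq_univ_sdiff]
  have h2 : ∀ i, (if i ∈ U then (1 - ρ) * q else 1 - ρ) = (1 - ρ) * (if i ∈ U then q else 1) := by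
    intro i; split_ifs <;> ring
  simp_rw [h2]
  rw [Finset.prod_mul_distrib, Finset.prod_const, Finset.prod_ite]
  simp only [Finset.prod_const_one, mul_one, Finset.prod_const]
  congr 2
  congr 1
  ext i
  simp only [Finset.mem_sdiff, Finset.mem_filter, Finset.mem_compl]
  tauto

/-- The tower identity for all levels. -/
lemma fs_tower (ρ q : ℝ) (f : (I → Bool) → ℝ) :
    rs ρ (fun R => av (fun z => fs q (res R z f))) = fs (ρ + (1 - ρ) * q) f := by
  have h1 : ∀ R : Finset I, av (fun z => fs q (res R z f)) =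
      ∑ U : Finset I, q ^ (U \ R).card * coef f U ^ 2 := by
    intro R
    unfold fs
    rw [av_sum]
    simp_rw [av_mul_left, av_coef_res_sq, Finset.mul_sum]
    rw [Finset.sum_comm]
    refine Finset.sum_congr rfl fun U _ => ?_
    rw [Finset.sum_eq_single (U \ R)]
    · simp
    · intro S _ hS
      rw [if_neg (Ne.symm hS)]; ring
    · intro h; exact absurd (Finset.mem_univ _) h
  unfold rs
  simp_rw [h1, Finset.mul_sum]
  rw [Finset.sum_comm]
  unfold fs
  refine Finset.sum_congr rfl fun U _ => ?_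
  rw [← sum_weights, Finset.sum_mul]
  exact Finset.sum_congr rfl fun R _ => by ring

lemma rs_sub (ρ : ℝ) (P Q : Finset I → ℝ) : rs ρ (fun S => P S - Q S) = rs ρ P - rs ρ Q := by
  unfold rs
  rw [← Finset.sum_sub_distrib]
  exact Finset.sum_congr rfl fun S _ => by ring

/-- **The tower identity.** -/
theorem st_tower (ρ q : ℝ) (f : (I → Bool) → ℝ) :
    st (ρ + (1 - ρ) * q) f = st ρ f + rs ρ (fun R => av (fun z => st q (res R z f))) := by
  have h1 : ∀ R : Finset I, av (fun z => st q (res R z f)) =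
      av (fun z => fs q (res R z f)) - av (fun z => av (res R z f) ^ 2) := by
    intro R
    rw [← av_sub]
    congr 1
    funext z
    rw [fs_eq, coef_empty]; unfold av; ring
  simp_rw [h1]
  rw [rs_sub, fs_tower]
  have h2 : rs ρ (fun R => av (fun z => av (res R z f) ^ 2)) = fs ρ f :=
    Lib_helper83.QP.rs_mean_sq f ρ
  rw [h2, fs_eq, fs_eq]
  ring

lemma st_zero (f : (I → Bool) → ℝ) : st 0 f = 0 := by
  unfold st
  refine Finset.sum_eq_zero fun S hS => ?_
  have hS' : S.card ≠ 0 := by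
    rw [Finset.mem_erase] at hS
    exact fun h => hS.1 (Finset.card_eq_zero.1 h)
  rw [zero_pow hS', zero_mul]

lemma fs_one_le {f : (I → Bool) → ℝ} (hf : ∀ x, |f x| ≤ 1) : ∑ S : Finset I, coef f S ^ 2 ≤ 1 := by
  have hpar : av (fun x => f x ^ 2) = ∑ S : Finset I, coef f S ^ 2 := (parseval_sq f).symm
  rw [← hpar]
  refine av_le_const fun x => ?_
  rw [← sq_abs]
  nlinarith [abs_nonneg (f x), hf x]

/-- The first step: only the first level matters. -/
theorem st_small {d : ℕ} {f : (I → Bool) → ℝ} (hf : ∀ x, |f x| ≤ 1) (hd : LowDeg d f)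
    {ρ a : ℝ} (hρ0 : 0 ≤ ρ) (hρ1 : ρ ≤ 1) (ha : ∀ j, inf f j ≤ a) :
    st ρ f ≤ ρ * (4 * (d : ℝ) ^ 2 * Real.sqrt a) + ρ ^ 2 := by
  have hlev : ∑ i, coef f {i} ^ 2 ≤ 4 * (d : ℝ) ^ 2 * Real.sqrt a := by
    have h1 : ∀ i, coef f {i} = av (D i f) := fun i => by
      rw [← av_sg_mul, Lib_helper8.QP.coef_eq_av]
      congr 1
      funext x
      rw [Lib_helper8.QP.chi_singleton]; ring
    have h2 : ∀ i, |av (D i f)| ≤ Real.sqrt a := fun i => by
      refine le_trans ?_ (Real.sqrt_le_sqrt (ha i))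
      apply Real.abs_le_sqrt
      have := av_cs (D i f) (fun _ => 1)
      simp only [mul_one, one_pow] at this
      rw [av_const, mul_one] at this
      exact this
    calc ∑ i, coef f {i} ^ 2 = ∑ i, |av (D i f)| * |av (D i f)| := by
          refine Finset.sum_congr rfl fun i _ => ?_
          rw [h1, abs_mul_abs_self, sq]
      _ ≤ ∑ i, |av (D i f)| * Real.sqrt a :=
          Finset.sum_le_sum fun i _ => mul_le_mul_of_nonneg_left (h2 i) (abs_nonneg _)
      _ = (∑ i, |av (D i f)|) * Real.sqrt a := by rw [Finset.sum_mul]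
      _ ≤ (4 * (d : ℝ) ^ 2) * Real.sqrt a := by
          apply mul_le_mul_of_nonneg_right _ (Real.sqrt_nonneg _)
          calc ∑ i, |av (D i f)| ≤ ∑ i, av (fun x => |D i f x|) :=
                Finset.sum_le_sum fun i _ => abs_av_le _
            _ = av (fun x => ∑ i, |D i f x|) := by rw [av_sum]
            _ ≤ _ := av_le_const fun x => Lib_helper96.QP.sum_abs_D_le hf hd x
  have hsplit : st ρ f ≤ ∑ S : Finset I, (ρ * (if S.card = 1 then coef f S ^ 2 else 0) +
      ρ ^ 2 * coef f S ^ 2) := by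
    unfold st
    calc _ ≤ ∑ S ∈ univ.erase (∅ : Finset I), (ρ * (if S.card = 1 then coef f S ^ 2 else 0) +
          ρ ^ 2 * coef f S ^ 2) := by
          refine Finset.sum_le_sum fun S hS => ?_
          have hS' : S.card ≠ 0 := by
            rw [Finset.mem_erase] at hS
            exact fun h => hS.1 (Finset.card_eq_zero.1 h)
          by_cases h1 : S.card = 1
          · rw [if_pos h1, h1, pow_one]
            have : 0 ≤ ρ ^ 2 * coef f S ^ 2 := by positivity
            linarith
          · rw [if_neg h1, mul_zero, zero_add]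
            apply mul_le_mul_of_nonneg_right _ (sq_nonneg _)
            exact pow_le_pow_of_le_one hρ0 hρ1 (by omega)
      _ ≤ _ := by
          refine Finset.sum_le_sum_of_subset_of_nonneg (Finset.subset_univ _) fun S _ _ => ?_
          split_ifs <;> positivity
  have h1 : ∑ S : Finset I, (if S.card = 1 then coef f S ^ 2 else 0) = ∑ i, coef f {i} ^ 2 := by
    rw [← Finset.sum_filter]
    symm
    refine Finset.sum_bij (fun i _ => ({i} : Finset I)) ?_ ?_ ?_ ?_
    · intro i _; simp
    · intro i _ j _ h; simpa using h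
    · intro S hS
      rw [Finset.mem_filter, Finset.card_eq_one] at hS
      obtain ⟨i, hi⟩ := hS.2
      exact ⟨i, Finset.mem_univ _, hi.symm⟩
    · intro i _; rfl
  refine hsplit.trans ?_
  rw [Finset.sum_add_distrib, ← Finset.mul_sum, ← Finset.mul_sum, h1]
  have h2 := fs_one_le hf
  have h3 : ρ * ∑ i, coef f {i} ^ 2 ≤ ρ * (4 * (d : ℝ) ^ 2 * Real.sqrt a) :=
    mul_le_mul_of_nonneg_left hlev hρ0
  have h4 : ρ ^ 2 * ∑ S : Finset I, coef f S ^ 2 ≤ ρ ^ 2 * 1 :=
    mul_le_mul_of_nonneg_left h2 (sq_nonneg _)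
  linarith

/-! ### Removal of coordinates -/

/-- average over the coordinates in `B` -/
noncomputable def rmv (B : Finset I) (f : (I → Bool) → ℝ) (x : I → Bool) : ℝ := av (res Bᶜ x f)

lemma coef_rmv (B S : Finset I) (f : (I → Bool) → ℝ) :
    coef (rmv B f) S = if S ⊆ Bᶜ then coef f S else 0 := by
  have h1 : rmv B f = fun x => ∑ U : Finset I, (if U ⊆ Bᶜ then coef f U else 0) * chi U x := by
    funext x
    unfold rmv
    rw [Lib_helper83.QP.av_res]
  rw [h1, coef_sum]
  rw [Finset.sum_eq_single S]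
  · rw [coef_const_mul, coef_chi, if_pos rfl, mul_one]
  · intro U _ hU
    rw [coef_const_mul, coef_chi, if_neg hU]
    ring
  · intro h; exact absurd (Finset.mem_univ _) h

lemma rmv_bdd {f : (I → Bool) → ℝ} (hf : ∀ x, |f x| ≤ 1) (B : Finset I) (x : I → Bool) :
    |rmv B f x| ≤ 1 := by
  unfold rmv
  refine (abs_av_le _).trans (av_le_const fun y => hf _)

lemma lowDeg_rmv {d : ℕ} {f : (I → Bool) → ℝ} (hd : LowDeg d f) (B : Finset I) :
    LowDeg d (rmv B f) := by
  intro S hS
  rw [coef_rmv, hd S hS]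
  simp

lemma inf_rmv_le (B : Finset I) (f : (I → Bool) → ℝ) (j : I) : inf (rmv B f) j ≤ inf f j := by
  rw [Lib_helper9.QP.inf_eq, Lib_helper9.QP.inf_eq]
  refine Finset.sum_le_sum fun S _ => ?_
  rw [coef_rmv]
  split_ifs
  · exact le_rfl
  · simp only [ne_eq, OfNat.ofNat_ne_zero, not_false_eq_true, zero_pow]
    positivity

lemma inf_rmv_mem {B : Finset I} {j : I} (hj : j ∈ B) (f : (I → Bool) → ℝ) :
    inf (rmv B f) j = 0 := by
  rw [Lib_helper9.QP.inf_eq]
  refine Finset.sum_eq_zero fun S hS => ?_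
  rw [Finset.mem_filter] at hS
  rw [coef_rmv, if_neg (fun h => ?_)]
  · ring
  · exact (Finset.mem_compl.1 (h hS.2)) hj

theorem st_rmv (B : Finset I) (f : (I → Bool) → ℝ) {q : ℝ} (hq0 : 0 ≤ q) (hq1 : q ≤ 1) :
    st q f ≤ st q (rmv B f) + ∑ i ∈ B, inf f i := by
  have h1 : ∑ i ∈ B, inf f i = ∑ S : Finset I, ∑ i ∈ B, if i ∈ S then coef f S ^ 2 else 0 := by
    rw [Finset.sum_comm]
    refine Finset.sum_congr rfl fun i _ => ?_
    rw [Lib_helper9.QP.inf_eq, Finset.sum_filter]
  have h2 : ∑ S ∈ univ.erase (∅ : Finset I), ∑ i ∈ B, (if i ∈ S then coef f S ^ 2 else 0) ≤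
      ∑ i ∈ B, inf f i := by
    rw [h1]
    refine Finset.sum_le_sum_of_subset_of_nonneg (Finset.subset_univ _) fun S _ _ =>
      Finset.sum_nonneg fun i _ => ?_
    split_ifs <;> positivity
  refine le_trans ?_ (add_le_add_right h2 _)
  unfold st
  rw [← Finset.sum_add_distrib]
  refine Finset.sum_le_sum fun S _ => ?_
  rw [coef_rmv]
  have hnn : 0 ≤ ∑ i ∈ B, (if i ∈ S then coef f S ^ 2 else 0) :=
    Finset.sum_nonneg fun i _ => by split_ifs <;> positivity
  split_ifs with h
  · linarith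
  · rw [Finset.not_subset] at h
    obtain ⟨i, hiS, hiB⟩ := h
    have hiB' : i ∈ B := by
      by_contra hc
      exact hiB (Finset.mem_compl.2 hc)
    have h3 : (if i ∈ S then coef f S ^ 2 else 0) ≤
        ∑ i ∈ B, (if i ∈ S then coef f S ^ 2 else 0) :=
      Finset.single_le_sum (f := fun i => if i ∈ S then coef f S ^ 2 else 0)
        (fun i _ => by split_ifs <;> positivity) hiB'
    rw [if_pos hiS] at h3
    have h4 : q ^ S.card ≤ 1 := pow_le_one₀ hq0 hq1
    have h5 : q ^ S.card * coef f S ^ 2 ≤ 1 * coef f S ^ 2 :=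
      mul_le_mul_of_nonneg_right h4 (sq_nonneg _)
    simp only [ne_eq, OfNat.ofNat_ne_zero, not_false_eq_true, zero_pow, mul_zero, zero_add]
    linarith

end Pool.Agent.Lib_helper30.MF
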